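import Pool.Agent.T2H57.PP.Pow

/-!
# Arithmetic of Gaussian rows, first part
-/

set_option autoImplicit false

open scoped NumberTheorySymbols

namespace Pool.Agent.T2H57.PP

theorem int_coprime_shift (x y z : ℤ) (hy : y ≠ 0)
    (h : ∀ p : ℤ, Prime p → p ∣ x → p ∣ y → p ∣ z → False) :
    ∃ k : ℤ, IsCoprime (x + k * z) y := by
  classical
  let k : ℕ := ∏ p ∈ (y.natAbs.primeFactors.filter (fun p : ℕ => ¬ ((p : ℤ) ∣ x))), p
  refine ⟨k, ?_⟩
  by_contra hc
  rw [Int.isCoprime_iff_gcd_eq_one] at hc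
  obtain ⟨p, hp, hpd⟩ := Nat.exists_prime_and_dvd hc
  have h1 : (p : ℤ) ∣ x + k * z := (Int.natCast_dvd_natCast.2 hpd).trans (Int.gcd_dvd_left ..)
  have h2 : (p : ℤ) ∣ y := (Int.natCast_dvd_natCast.2 hpd).trans (Int.gcd_dvd_right ..)
  have hpp : Prime (p : ℤ) := Nat.prime_iff_prime_int.1 hp
  by_cases hx : (p : ℤ) ∣ x
  · have h3 : (p : ℤ) ∣ k * z := (dvd_add_right hx).1 h1
    rcases hpp.dvd_or_dvd h3 with h4 | h4
    · have h5 : p ∣ k := Int.natCast_dvd_natCast.1 h4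
      rw [Prime.dvd_finsetProd_iff hp.prime] at h5
      obtain ⟨q, hq, hpq⟩ := h5
      rw [Finset.mem_filter, Nat.mem_primeFactors] at hq
      have := (Nat.prime_dvd_prime_iff_eq hp hq.1.1).1 hpq
      subst this
      exact hq.2 hx
    · exact h p hpp hx h2 h4
  · have h3 : p ∣ k := by
      refine Finset.dvd_prod_of_mem _ ?_
      rw [Finset.mem_filter, Nat.mem_primeFactors]
      exact ⟨⟨hp, Int.natCast_dvd.1 h2, by omega⟩, hx⟩
    have h4 : (p : ℤ) ∣ k * z := (Int.natCast_dvd_natCast.2 h3).mul_right z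
    exact hx ((dvd_add_left h4).1 h1)

theorem norm_nonneg' (z : G) : 0 ≤ Zsqrtd.norm z := by rw [norm_def']; positivity

theorem dvd_norm (z : G) : z ∣ ((Zsqrtd.norm z : ℤ) : G) := ⟨star z, Zsqrtd.norm_eq_mul_conj z⟩

theorem step1 {a b : G} (ha : a ≠ 0) (h : IsCoprime a b) :
    ∃ s : G, IsCoprime (b + s * a).re (b + s * a).im ∧ (Zsqrtd.norm (b + s * a)) % 2 = 1 := by
  -- first an odd row entry with nonzero imaginary part
  have h1 : ∃ s : G, ¬ lam ∣ b + s * a ∧ (b + s * a).im ≠ 0 := by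
    have h2 : ∃ s : G, ¬ lam ∣ b + s * a := by
      by_contra hc
      push Not at hc
      have h3 := hc 0
      have h4 := hc 1
      rw [zero_mul, add_zero] at h3
      rw [one_mul] at h4
      have h5 : lam ∣ a := (dvd_add_right h3).1 h4
      exact lam_prime.not_isUnit (h.isUnit_of_dvd' h5 h3)
    obtain ⟨s, hs⟩ := h2
    have h6 : ∀ t : G, ¬ lam ∣ b + (s + 2 * t) * a := by
      intro t ht
      apply hs
      have h7 : lam ∣ (2 : G) * (t * a) := by
        rw [two_eq]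
        exact Dvd.intro (-I * lam * (t * a)) (by ring)
      have h8 : b + (s + 2 * t) * a = (b + s * a) + 2 * (t * a) := by ring
      rw [h8] at ht
      exact (dvd_add_left h7).1 ht
    by_contra hc
    push Not at hc
    have c0 := hc (s + 2 * 0) (h6 0)
    have c1 := hc (s + 2 * 1) (h6 1)
    have c2 := hc (s + 2 * I) (h6 I)
    apply ha
    have e0 : b + (s + 2 * 0) * a = b + s * a := by ring
    have e1 : b + (s + 2 * 1) * a = (b + s * a) + 2 * a := by ring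
    have e2 : b + (s + 2 * I) * a = (b + s * a) + 2 * (I * a) := by ring
    rw [e0] at c0
    rw [e1, Zsqrtd.im_add, c0] at c1
    rw [e2, Zsqrtd.im_add, c0] at c2
    have d1 : ((2 : G) * a).im = 2 * a.im := by
      rw [Zsqrtd.im_mul]; simp
    have d2 : ((2 : G) * (I * a)).im = 2 * a.re := by
      rw [Zsqrtd.im_mul, Zsqrtd.im_mul]; simp [I]
    rw [d1] at c1
    rw [d2] at c2
    ext
    · simp only [Zsqrtd.re_zero]; omega
    · simp only [Zsqrtd.im_zero]; omega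
  obtain ⟨s, hs1, hs2⟩ := h1
  set b' := b + s * a with hb'
  have hcop : IsCoprime a b' := by
    have := h.add_mul_left_right s
    rw [hb', mul_comm s a]
    exact this
  obtain ⟨k, hk⟩ := int_coprime_shift b'.re b'.im (2 * Zsqrtd.norm a) hs2 (by
    intro p hp hp1 hp2 hp3
    have hpb : (p : G) ∣ b' := by
      obtain ⟨x, hx⟩ := hp1
      obtain ⟨y, hy⟩ := hp2
      refine ⟨⟨x, y⟩, ?_⟩
      ext
      · simp [hx]
      · simp [hy]
    rcases hp.dvd_or_dvd hp3 with h4 | h4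
    · -- `p ∣ 2` contradicts oddness
      apply hs1
      rw [lam_dvd_iff]
      have h5 : p.natAbs ∣ 2 := by
        have := Int.natAbs_dvd_natAbs.2 h4
        simpa using this
      have h6 : p.natAbs = 2 := by
        have h7 := Int.prime_iff_natAbs_prime.1 hp
        exact (Nat.prime_dvd_prime_iff_eq h7 Nat.prime_two).1 h5
      have h8 : (2 : ℤ) ∣ p := by
        have : ((p.natAbs : ℕ) : ℤ) ∣ p := Int.natAbs_dvd.2 dvd_rfl
        rw [h6] at this
        exact_mod_cast this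
      have h9 := dvd_add (h8.trans hp1) (h8.trans hp2)
      exact Int.emod_eq_zero_of_dvd h9
    · have h5 : IsCoprime a ((p : ℤ) : G) := hcop.of_isCoprime_of_dvd_right hpb
      have h6 : IsCoprime (star a) ((p : ℤ) : G) := by
        obtain ⟨u, v, huv⟩ := h5
        refine ⟨star u, star v, ?_⟩
        have := congrArg star huv
        rw [star_add, star_mul, star_mul, star_one] at this
        have h7 : star ((p : ℤ) : G) = ((p : ℤ) : G) := by
          ext <;> simp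
        rw [h7] at this
        linear_combination this
      have h7 : IsCoprime (a * star a) ((p : ℤ) : G) := h5.mul_left h6
      rw [← Zsqrtd.norm_eq_mul_conj] at h7
      have h8 : ((p : ℤ) : G) ∣ ((Zsqrtd.norm a : ℤ) : G) := by
        have := map_dvd (Int.castRingHom G) h4
        simpa using this
      have h9 : IsUnit ((p : ℤ) : G) := h7.isUnit_of_dvd' h8 dvd_rfl
      have h10 := Zsqrtd.norm_eq_one_iff.2 h9
      have h11 : Zsqrtd.norm ((p : ℤ) : G) = p * p := by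
        rw [norm_def']; simp [pow_two]
      rw [h11, Int.natAbs_mul] at h10
      have h12 := Int.prime_iff_natAbs_prime.1 hp
      have h13 := h12.one_lt
      have h14 : p.natAbs * p.natAbs > 1 := by nlinarith
      omega)
  refine ⟨s + 2 * k * star a, ?_⟩
  have h15 : b + (s + 2 * k * star a) * a = b' + ((2 * k * Zsqrtd.norm a : ℤ) : G) := by
    push_cast
    rw [Zsqrtd.norm_eq_mul_conj, hb']
    ring
  rw [h15]
  have h16 : (b' + ((2 * k * Zsqrtd.norm a : ℤ) : G)).re = b'.re + k * (2 * Zsqrtd.norm a) := by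
    rw [Zsqrtd.re_add, Zsqrtd.re_intCast]; ring
  have h17 : (b' + ((2 * k * Zsqrtd.norm a : ℤ) : G)).im = b'.im := by
    rw [Zsqrtd.im_add, Zsqrtd.im_intCast]; ring
  refine ⟨by rw [h16, h17]; exact hk, ?_⟩
  rw [lam_dvd_iff_norm, norm_def'] at hs1
  rw [norm_def', h16, h17]
  have h18 : (b'.re + k * (2 * Zsqrtd.norm a)) ^ 2 + b'.im ^ 2 = (b'.re ^ 2 + b'.im ^ 2) +
    2 * (2 * b'.re * (k * Zsqrtd.norm a) + 2 * (k * Zsqrtd.norm a) ^ 2) := by ring
  rw [h18]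
  omega

theorem step2 {a b : G} (hb : IsCoprime b.re b.im) (hn : (Zsqrtd.norm b) % 2 = 1) :
    ∃ (t : G) (r : ℤ), a + t * b = (r : G) ∧ r % 4 = 2 ∧ 0 < r := by
  obtain ⟨u, v, huv⟩ := hb
  have hN0 := norm_nonneg' b
  set N := Zsqrtd.norm b with hN
  have hN1 : 1 ≤ N := by omega
  set r0 : ℤ := a.re - a.im * v * b.re + a.im * u * b.im with hr0
  set K : ℤ := |r0 + (2 - r0) * N ^ 2| + 1 with hK
  refine ⟨(⟨-a.im * v, -a.im * u⟩ : G) + ((((2 - r0) * N + 4 * K : ℤ)) : G) * star b,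
    r0 + (2 - r0) * N ^ 2 + 4 * K * N, ?_, ?_, ?_⟩
  · have h1 : a + ((⟨-a.im * v, -a.im * u⟩ : G) + ((((2 - r0) * N + 4 * K : ℤ)) : G) * star b) * b =
      (a + (⟨-a.im * v, -a.im * u⟩ : G) * b) + (((2 - r0) * N + 4 * K : ℤ) : G) * (b * star b) := by
      ring
    have h2 : a + (⟨-a.im * v, -a.im * u⟩ : G) * b = (r0 : G) := by
      ext
      · simp only [Zsqrtd.re_add, Zsqrtd.re_mul, Zsqrtd.re_intCast]
        rw [hr0]; ring
      · simp only [Zsqrtd.im_add, Zsqrtd.im_mul, Zsqrtd.im_intCast]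
        linear_combination (-a.im) * huv
    rw [h1, h2, ← Zsqrtd.norm_eq_mul_conj, ← hN]
    push_cast
    ring
  · obtain ⟨l, hl⟩ : ∃ l, N = 2 * l + 1 := ⟨N / 2, by omega⟩
    have h1 : r0 + (2 - r0) * N ^ 2 + 4 * K * N = 2 + 4 * ((2 - r0) * (l ^ 2 + l) + K * N) := by
      rw [hl]; ring
    rw [h1]
    omega
  · have h1 := neg_abs_le (r0 + (2 - r0) * N ^ 2)
    have h2 : K * 1 ≤ K * N := mul_le_mul_of_nonneg_left hN1 (by positivity)
    have h3 : 0 ≤ |r0 + (2 - r0) * N ^ 2| := abs_nonneg _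
    nlinarith

/-- norms of shifts -/
theorem norm_shift (c w : G) (q : ℤ) : Zsqrtd.norm (c + w * (q : G)) =
    Zsqrtd.norm c + q * (2 * (c.re * w.re + c.im * w.im) + q * Zsqrtd.norm w) := by
  rw [norm_def', norm_def', norm_def']
  simp only [Zsqrtd.re_add, Zsqrtd.im_add, Zsqrtd.re_mul, Zsqrtd.im_mul, Zsqrtd.re_intCast,
    Zsqrtd.im_intCast]
  ring

theorem odd_sq_mod (X : ℤ) : ∃ m, (2 * X + 1) ^ 2 = 8 * m + 1 := by
  obtain ⟨m, hm⟩ := Int.even_mul_succ_self X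
  exact ⟨m, by linear_combination 4 * hm⟩

/-- an even number modulo 4 -/
theorem even_shift (y q : ℤ) (hy : y % 2 = 0) (hq : q % 4 = 2) (τ : ℤ) (hτ : τ = 0 ∨ τ = 4) :
    ∃ e m : ℤ, (y + q * e) ^ 2 = 8 * m + τ := by
  have h1 : y % 4 = 0 ∨ y % 4 = 2 := by omega
  obtain ⟨Q, hQ⟩ : ∃ Q, q = 4 * Q + 2 := ⟨q / 4, by omega⟩
  rcases h1 with h1 | h1
  · obtain ⟨Y, hY⟩ : ∃ Y, y = 4 * Y := ⟨y / 4, by omega⟩
    rcases hτ with h | h
    · exact ⟨0, 2 * Y ^ 2, by rw [hY, h]; ring⟩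
    · exact ⟨1, 2 * (Y + Q) ^ 2 + 2 * (Y + Q), by rw [hY, hQ, h]; ring⟩
  · obtain ⟨Y, hY⟩ : ∃ Y, y = 4 * Y + 2 := ⟨y / 4, by omega⟩
    rcases hτ with h | h
    · exact ⟨1, 2 * (Y + Q + 1) ^ 2, by rw [hY, hQ, h]; ring⟩
    · exact ⟨0, 2 * Y ^ 2 + 2 * Y, by rw [hY, h]; ring⟩

theorem big_shift (y q : ℤ) (hq : 0 < q) : 1 < (y + q * (4 * (|y| + 1))) ^ 2 := by
  have h1 := neg_abs_le y
  have h2 : 0 ≤ |y| := abs_nonneg y
  have h3 : 2 ≤ y + q * (4 * (|y| + 1)) := by nlinarith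
  nlinarith

theorem choose_w (c : G) (hc : (Zsqrtd.norm c) % 2 = 1) (q : ℤ) (hq : q % 4 = 2) (hq0 : 0 < q)
    (τ : ℤ) (hτ : τ = 0 ∨ τ = 4) : ∃ (w : G) (m : ℤ), Zsqrtd.norm (c + w * (q : G)) = 8 * m + 1 + τ ∧
    1 < Zsqrtd.norm (c + w * (q : G)) := by
  obtain ⟨Q, hQ⟩ : ∃ Q, q = 2 * Q := ⟨q / 2, by omega⟩
  have h0 : ¬ lam ∣ c := by rw [lam_dvd_iff_norm]; omega
  rw [lam_dvd_iff] at h0
  have h1 : ∀ w : G, Zsqrtd.norm (c + w * (q : G)) = (c.re + q * w.re) ^ 2 + (c.im + q * w.im) ^ 2 := by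
    intro w
    rw [norm_def']
    simp only [Zsqrtd.re_add, Zsqrtd.im_add, Zsqrtd.re_mul, Zsqrtd.im_mul, Zsqrtd.re_intCast,
      Zsqrtd.im_intCast]
    ring
  have h2 : (c.re % 2 = 1 ∧ c.im % 2 = 0) ∨ (c.re % 2 = 0 ∧ c.im % 2 = 1) := by omega
  rcases h2 with ⟨h3, h4⟩ | ⟨h3, h4⟩
  · obtain ⟨e, m, hm⟩ := even_shift c.im q h4 hq τ hτ
    obtain ⟨X, hX⟩ : ∃ X, c.re = 2 * X + 1 := ⟨c.re / 2, by omega⟩
    obtain ⟨m', hm'⟩ := odd_sq_mod (X + Q * (4 * (|c.re| + 1)))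
    have h5 : c.re + q * (4 * (|c.re| + 1)) = 2 * (X + Q * (4 * (|c.re| + 1))) + 1 := by
      rw [hQ]; linear_combination hX
    refine ⟨⟨4 * (|c.re| + 1), e⟩, m + m', ?_, ?_⟩
    · rw [h1]
      simp only []
      rw [hm, h5, hm']; ring
    · rw [h1]
      have h6 := big_shift c.re q hq0
      have h7 := sq_nonneg (c.im + q * e)
      simp only []
      linarith
  · obtain ⟨e, m, hm⟩ := even_shift c.re q h3 hq τ hτ
    obtain ⟨X, hX⟩ : ∃ X, c.im = 2 * X + 1 := ⟨c.im / 2, by omega⟩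
    obtain ⟨m', hm'⟩ := odd_sq_mod (X + Q * (4 * (|c.im| + 1)))
    have h5 : c.im + q * (4 * (|c.im| + 1)) = 2 * (X + Q * (4 * (|c.im| + 1))) + 1 := by
      rw [hQ]; linear_combination hX
    refine ⟨⟨e, 4 * (|c.im| + 1)⟩, m + m', ?_, ?_⟩
    · rw [h1]
      simp only []
      rw [hm, h5, hm']; ring
    · rw [h1]
      have h6 := big_shift c.im q hq0
      have h7 := sq_nonneg (c.re + q * e)
      simp only []
      linarith

end Pool.Agent.T2H57.PP
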