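import Pool.Agent.T2H57.PP.Ar1

/-!
# Arithmetic of Gaussian rows, second part
-/

set_option autoImplicit false

open scoped NumberTheorySymbols

namespace Pool.Agent.T2H57.PP

theorem coprime_norm {b : G} {r : ℤ} (h : IsCoprime b (r : G)) : IsCoprime (Zsqrtd.norm b) r := by
  obtain ⟨u, v, huv⟩ := h
  have h1 : u * b = 1 + (-v) * (r : G) := by linear_combination huv
  have h2 := congrArg Zsqrtd.norm h1
  rw [Zsqrtd.norm_mul, norm_shift] at h2
  have h3 : Zsqrtd.norm (1 : G) = 1 := Zsqrtd.norm_one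
  rw [h3] at h2
  exact ⟨Zsqrtd.norm u, -(2 * ((1 : G).re * (-v).re + (1 : G).im * (-v).im) + r * Zsqrtd.norm (-v)),
    by linear_combination h2⟩

theorem jacobi_two {n : ℕ} (hn : n % 8 = 1 ∨ n % 8 = 5) :
    J(2 | n) = if n % 8 = 1 then 1 else -1 := by
  have h1 : Odd n := by rw [Nat.odd_iff]; omega
  rw [jacobiSym.at_two h1, ZMod.χ₈_nat_eq_if_mod_eight]
  rcases hn with h | h
  · rw [if_neg (by omega), if_pos (Or.inl h), if_pos h]
  · rw [if_neg (by omega), if_neg (by omega), if_neg (by omega)]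

theorem step3 {b : G} {r : ℤ} (hb : (Zsqrtd.norm b) % 2 = 1) (hr : r % 4 = 2) (hr0 : 0 < r)
    (h : IsCoprime b (r : G)) : ∃ (w : G) (n : ℕ), Zsqrtd.norm (-b + w * (r : G)) = n ∧ 1 < n ∧
      n % 4 = 1 ∧ IsCoprime (n : ℤ) (r + 1) ∧ IsCoprime (n : ℤ) r ∧ J(r | n) = 1 := by
  obtain ⟨r', hr'⟩ : ∃ r' : ℕ, r = 2 * r' := ⟨(r / 2).toNat, by omega⟩
  have hrodd : r' % 2 = 1 := by omega
  have hrpos : 0 < r' := by omega
  set c : G := -b + (-b - 1) * (r : G) with hc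
  have hcn : (Zsqrtd.norm c) % 2 = 1 := by
    rw [hc, norm_shift, Zsqrtd.norm_neg, hr']
    have h1 : Zsqrtd.norm b + 2 * (r' : ℤ) * (2 * ((-b).re * (-b - 1 : G).re + (-b).im * (-b - 1 : G).im) +
      2 * (r' : ℤ) * Zsqrtd.norm (-b - 1)) = Zsqrtd.norm b + 2 * ((r' : ℤ) * (2 * ((-b).re * (-b - 1 : G).re + (-b).im * (-b - 1 : G).im) +
      2 * (r' : ℤ) * Zsqrtd.norm (-b - 1))) := by ring
    rw [h1]
    omega
  have hq : ((r + 1) * r) % 4 = 2 := by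
    obtain ⟨s, hs⟩ : ∃ s, r = 4 * s + 2 := ⟨r / 4, by omega⟩
    have : (r + 1) * r = 4 * (4 * s ^ 2 + 5 * s + 1) + 2 := by rw [hs]; ring
    rw [this]
    omega
  have hq0 : 0 < (r + 1) * r := by positivity
  have hcb := coprime_norm h
  -- the target parity
  have hgen : ∀ τ : ℤ, (τ = 0 ∨ τ = 4) → ∃ (w : G) (n : ℕ), Zsqrtd.norm (-b + w * (r : G)) = n ∧
      1 < n ∧ (n : ℤ) % 8 = 1 + τ ∧ IsCoprime (n : ℤ) (r + 1) ∧ IsCoprime (n : ℤ) r ∧
      (n : ℤ) % (r' : ℤ) = (Zsqrtd.norm b) % (r' : ℤ) := by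
    intro τ hτ
    obtain ⟨w, m, hw1, hw2⟩ := choose_w c hcn ((r + 1) * r) hq hq0 τ hτ
    have h2 : c + w * (((r + 1) * r : ℤ) : G) = -b + (-b - 1 + ((r + 1 : ℤ) : G) * w) * (r : G) := by
      rw [hc]; push_cast; ring
    rw [h2] at hw1 hw2
    refine ⟨-b - 1 + ((r + 1 : ℤ) : G) * w, (Zsqrtd.norm (-b + (-b - 1 + ((r + 1 : ℤ) : G) * w) * (r : G))).toNat,
      ?_, ?_, ?_, ?_, ?_, ?_⟩
    · exact (Int.toNat_of_nonneg (norm_nonneg' _)).symm
    · omega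
    · rw [Int.toNat_of_nonneg (norm_nonneg' _), hw1]
      rcases hτ with h | h <;> omega
    · rw [Int.toNat_of_nonneg (norm_nonneg' _)]
      have h3 : -b + (-b - 1 + ((r + 1 : ℤ) : G) * w) * (r : G) = 1 + (-b - 1 + (r : G) * w) * ((r + 1 : ℤ) : G) := by
        push_cast; ring
      rw [h3, norm_shift]
      have h4 : Zsqrtd.norm (1 : G) = 1 := Zsqrtd.norm_one
      rw [h4]
      exact ⟨1, -(2 * ((1 : G).re * (-b - 1 + (r : G) * w).re + (1 : G).im * (-b - 1 + (r : G) * w).im) +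
        (r + 1) * Zsqrtd.norm (-b - 1 + (r : G) * w)), by ring⟩
    · rw [Int.toNat_of_nonneg (norm_nonneg' _), norm_shift, Zsqrtd.norm_neg]
      exact IsCoprime.add_mul_left_left hcb _
    · rw [Int.toNat_of_nonneg (norm_nonneg' _), norm_shift, Zsqrtd.norm_neg]
      rw [hr', mul_comm 2 (r' : ℤ), mul_assoc]
      exact Int.add_mul_emod_self_left _ _ _
  have hN : Int.gcd (Zsqrtd.norm b) r' = 1 := by
    rw [← Int.isCoprime_iff_gcd_eq_one]
    rw [hr'] at hcb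
    exact hcb.of_mul_right_right
  have hfin : ∀ n : ℕ, n % 4 = 1 → (n : ℤ) % (r' : ℤ) = (Zsqrtd.norm b) % (r' : ℤ) →
      J(r | n) = J(2 | n) * J(Zsqrtd.norm b | r') := by
    intro n hn hn2
    rw [hr', jacobiSym.mul_left, jacobiSym.quadratic_reciprocity_one_mod_four' (Nat.odd_iff.2 hrodd) hn,
      jacobiSym.mod_left' hn2]
  rcases jacobiSym.eq_one_or_neg_one hN with hJ | hJ
  · obtain ⟨w, n, h1, h2, h3, h4, h5, h6⟩ := hgen 0 (Or.inl rfl)
    have h8 : n % 8 = 1 := by omega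
    refine ⟨w, n, h1, h2, by omega, h4, h5, ?_⟩
    rw [hfin n (by omega) h6, hJ, jacobi_two (Or.inl h8), if_pos h8]
    norm_num
  · obtain ⟨w, n, h1, h2, h3, h4, h5, h6⟩ := hgen 4 (Or.inr rfl)
    have h8 : n % 8 = 5 := by omega
    refine ⟨w, n, h1, h2, by omega, h4, h5, ?_⟩
    rw [hfin n (by omega) h6, hJ, jacobi_two (Or.inr h8), if_neg (by omega)]
    norm_num

theorem step5 {n : ℕ} {r : ℤ} (h1 : 1 < n) (h4 : n % 4 = 1) (hc : IsCoprime (n : ℤ) r)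
    (hJ : J(r | n) = 1) (B : ℕ) : ∃ p : ℕ, p.Prime ∧ p % 8 = 3 ∧ B < p ∧ (n : ℤ) ∣ p - r ∧
      J(n | p) = 1 := by
  obtain ⟨l, hl⟩ : ∃ l : ℤ, (n : ℤ) = 2 * l + 1 := ⟨(n : ℤ) / 2, by omega⟩
  obtain ⟨m, hm⟩ := odd_sq_mod l
  rw [← hl] at hm
  set a : ℤ := r + n * (n * (3 - r)) with ha
  have h5 : a = 3 + 8 * (m * (3 - r)) := by
    rw [ha]; linear_combination (3 - r) * hm
  have h6 : IsCoprime a (n : ℤ) := hc.symm.add_mul_left_left _
  have h7 : IsCoprime a 8 := by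
    rw [h5]
    refine IsCoprime.add_mul_left_left ?_ _
    exact ⟨3, -1, by norm_num⟩
  have h8 : IsCoprime a ((8 * n : ℕ) : ℤ) := by
    push_cast
    exact h7.mul_right h6
  obtain ⟨p, hp1, hp2, hp3⟩ := Nat.forall_exists_prime_gt_and_zmodEq B (by omega : 8 * n ≠ 0) h8
  have h9 : ((8 * n : ℕ) : ℤ) ∣ p - a := (Int.modEq_iff_dvd.1 hp3.symm)
  push_cast at h9
  have h10 : (8 : ℤ) ∣ p - a := (Dvd.intro _ rfl).trans h9
  have h11 : (n : ℤ) ∣ p - a := (Dvd.intro_left _ rfl).trans h9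
  have h12 : (n : ℤ) ∣ p - r := by
    obtain ⟨x, hx⟩ := h11
    exact ⟨x + n * (3 - r), by rw [ha] at hx; linear_combination hx⟩
  have h13 : p % 8 = 3 := by
    rw [h5] at h10
    omega
  refine ⟨p, hp2, h13, hp1, h12, ?_⟩
  rw [jacobiSym.quadratic_reciprocity_one_mod_four h4 (Nat.odd_iff.2 (by omega)), ← hJ]
  apply jacobiSym.mod_left'
  exact (Int.emod_emod_of_dvd _ dvd_rfl).symm.trans (by
    rw [Int.emod_emod_of_dvd _ dvd_rfl]
    exact Int.ModEq.symm (Int.modEq_iff_dvd.2 h12))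

theorem int_pow_sub (p : ℕ) (hp : p.Prime) (x : ℤ) : (p : ℤ) ∣ x ^ p - x := by
  have := Fact.mk hp
  rw [← ZMod.intCast_zmod_eq_zero_iff_dvd]
  push_cast
  rw [ZMod.pow_card, sub_self]

theorem G_split (z : G) : z = (z.re : G) + I * (z.im : G) := by
  ext <;> simp [I]

theorem cast_dvd {a b : ℤ} (h : a ∣ b) : (a : G) ∣ (b : G) := by
  have := map_dvd (Int.castRingHom G) h
  simpa using this

theorem frob (p : ℕ) (hp : p.Prime) (z : G) : (p : G) ∣ z ^ p - ((z.re : G) + I ^ p * (z.im : G)) := by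
  obtain ⟨c, hc⟩ := exists_add_pow_prime_eq hp (z.re : G) (I * (z.im : G))
  rw [← G_split z] at hc
  obtain ⟨u, hu⟩ := cast_dvd (int_pow_sub p hp z.re)
  obtain ⟨v, hv⟩ := cast_dvd (int_pow_sub p hp z.im)
  push_cast at hu hv
  refine ⟨u + I ^ p * v + (z.re : G) * (I * (z.im : G)) * c, ?_⟩
  rw [hc, mul_pow]
  linear_combination hu + I ^ p * hv

theorem I_pow_four : I ^ 4 = 1 := by
  have := I_mul
  linear_combination (I * I - 1) * this

theorem frob1 (p : ℕ) (hp : p.Prime) (h1 : p % 4 = 1) (z : G) : (p : G) ∣ z ^ p - z := by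
  have h := frob p hp z
  have h2 : I ^ p = I := by
    obtain ⟨k, hk⟩ : ∃ k, p = 4 * k + 1 := ⟨p / 4, by omega⟩
    rw [hk, pow_succ, pow_mul, I_pow_four, one_pow, one_mul]
  rw [h2, ← G_split z] at h
  exact h

theorem frob3 (p : ℕ) (hp : p.Prime) (h1 : p % 4 = 3) (z : G) : (p : G) ∣ z ^ p - star z := by
  have h := frob p hp z
  have h2 : I ^ p = -I := by
    obtain ⟨k, hk⟩ : ∃ k, p = 4 * k + 3 := ⟨p / 4, by omega⟩
    rw [hk, pow_add, pow_mul, I_pow_four, one_pow, one_mul]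
    linear_combination I * I_mul
  have h3 : (z.re : G) + I ^ p * (z.im : G) = star z := by
    rw [h2]
    ext <;> simp [I]
  rw [h3] at h
  exact h

theorem dvd_pow_sub_one' {R : Type} [CommRing R] {x p : R} (h : p ∣ x - 1) (n : ℕ) : p ∣ x ^ n - 1 := by
  have := sub_dvd_pow_sub_pow x 1 n
  rw [one_pow] at this
  exact h.trans this

/-- the unit correction -/
theorem step6 {a : G} {n p : ℕ} (hn : Zsqrtd.norm a = n) (hp : p.Prime) (hp8 : p % 8 = 3)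
    (hJ : J(n | p) = 1) : ∃ (m : ℕ) (ε ε' : G), ε * ε' = 1 ∧ ε ^ 4 = 1 ∧ 0 < m ∧ m % 2 = 1 ∧
      (p : G) ∣ (a * ε) ^ m - 1 := by
  have := Fact.mk hp
  obtain ⟨k, hk⟩ : ∃ k, p = 8 * k + 3 := ⟨p / 8, by omega⟩
  set m : ℕ := (2 * k + 1) * (4 * k + 1) with hm
  have hm2 : m % 2 = 1 := by
    rw [hm]
    have : (2 * k + 1) * (4 * k + 1) = 2 * (4 * k ^ 2 + 3 * k) + 1 := by ring
    rw [this]; omega
  -- `a ^ (p + 1) ≡ n`
  have h1 : (p : G) ∣ a ^ (p + 1) - ((n : ℤ) : G) := by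
    have h2 := frob3 p hp (by omega) a
    rw [← hn, Zsqrtd.norm_eq_mul_conj]
    obtain ⟨c, hc⟩ := h2
    exact ⟨a * c, by rw [pow_succ]; linear_combination a * hc⟩
  -- `n ^ (p / 2) ≡ 1`
  have h3 : (p : ℤ) ∣ (n : ℤ) ^ (p / 2) - 1 := by
    rw [← ZMod.intCast_zmod_eq_zero_iff_dvd]
    have h4 := legendreSym.eq_pow p (n : ℤ)
    rw [jacobiSym.legendreSym.to_jacobiSym, hJ] at h4
    push_cast at h4 ⊢
    rw [← h4, sub_self]
  have h5 : (p : G) ∣ ((n : ℤ) : G) ^ (p / 2) - 1 := by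
    have := cast_dvd h3
    push_cast at this ⊢
    exact this
  have h6 : (p : G) ∣ (a ^ m) ^ 4 - 1 := by
    have h7 : (p : G) ∣ (a ^ (p + 1)) ^ (p / 2) - ((n : ℤ) : G) ^ (p / 2) :=
      h1.trans (sub_dvd_pow_sub_pow _ _ _)
    have h8 := dvd_add h7 h5
    have h9 : (a ^ m) ^ 4 = (a ^ (p + 1)) ^ (p / 2) := by
      rw [← pow_mul, ← pow_mul]
      congr 1
      have : p / 2 = 4 * k + 1 := by omega
      rw [this, hk, hm]; ring
    rw [h9]
    convert h8 using 1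
    ring
  have hpp : Prime (p : G) := by
    exact (GaussianInt.prime_iff_mod_four_eq_three_of_nat_prime p).2 (by omega)
  have h10 : ∃ e : G, e ^ 4 = 1 ∧ (p : G) ∣ a ^ m - e := by
    have h11 : (a ^ m) ^ 4 - 1 = (a ^ m - 1) * (a ^ m - (-1)) * ((a ^ m - I) * (a ^ m - (-I))) := by
      have := I_mul
      linear_combination ((a ^ m) ^ 2 - 1) * this
    rw [h11] at h6
    rcases hpp.dvd_or_dvd h6 with h | h <;> rcases hpp.dvd_or_dvd h with h | h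
    · exact ⟨1, by ring, h⟩
    · exact ⟨-1, by ring, h⟩
    · exact ⟨I, I_pow_four, h⟩
    · exact ⟨-I, by rw [neg_pow, I_pow_four]; ring, h⟩
  obtain ⟨e, he, hpe⟩ := h10
  refine ⟨m, e ^ (3 * m), e ^ m, ?_, ?_, by positivity, hm2, ?_⟩
  · rw [← pow_add]
    have : 3 * m + m = 4 * m := by ring
    rw [this, pow_mul, he, one_pow]
  · rw [← pow_mul]
    have : 3 * m * 4 = 4 * (3 * m) := by ring
    rw [this, pow_mul, he, one_pow]
  · obtain ⟨c, hc⟩ := hpe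
    refine ⟨c * (e ^ (3 * m)) ^ m, ?_⟩
    rw [mul_pow]
    have h12 : e * (e ^ (3 * m)) ^ m = 1 := by
      obtain ⟨j, hj⟩ : ∃ j, m = 2 * j + 1 := ⟨m / 2, by omega⟩
      have h13 : 1 + 3 * m * m = 4 * (3 * j ^ 2 + 3 * j + 1) := by rw [hj]; ring
      rw [← pow_mul, ← pow_succ', add_comm, h13, pow_mul, he, one_pow]
    linear_combination (e ^ (3 * m)) ^ m * hc + h12

end Pool.Agent.T2H57.PP
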