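import Pool.Agent.T2H57.PP.Ar2

/-!
# Arithmetic of Gaussian rows, third part
-/

set_option autoImplicit false

open scoped NumberTheorySymbols

namespace Pool.Agent.T2H57.PP

theorem crt2 {M N : ℤ} (h : IsCoprime M N) (α β : ℤ) : ∃ x : ℤ, M ∣ x - α ∧ N ∣ x - β := by
  obtain ⟨u, v, huv⟩ := h
  refine ⟨β * (u * M) + α * (v * N), ⟨(β - α) * u, ?_⟩, ⟨(α - β) * v, ?_⟩⟩
  · linear_combination α * huv
  · linear_combination β * huv

theorem step8 {n m p : ℕ} {r : ℤ} (h1 : 1 < n) (h4 : n % 4 = 1) (hm : m % 2 = 1)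
    (hc : IsCoprime (n : ℤ) r) (hc1 : IsCoprime (n : ℤ) (r + 1)) (hp : (n : ℤ) ∣ p - r) (B : ℕ) :
    ∃ q : ℕ, q.Prime ∧ q % 4 = 1 ∧ B < q ∧ (n : ℤ) ∣ 1 + p * q ∧ Nat.Coprime m (q - 1) := by
  classical
  let L : ℕ := ∏ l ∈ m.primeFactors.filter (fun l : ℕ => ¬ l ∣ n), l
  have hLn : Nat.Coprime n L := by
    refine Nat.Coprime.prod_right fun l hl => ?_
    rw [Finset.mem_filter, Nat.mem_primeFactors] at hl
    exact ((Nat.Prime.coprime_iff_not_dvd hl.1.1).2 hl.2).symm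
  have hL2 : Nat.Coprime 4 L := by
    refine Nat.Coprime.prod_right fun l hl => ?_
    rw [Finset.mem_filter, Nat.mem_primeFactors] at hl
    have h5 : ¬ l ∣ 4 := by
      intro h6
      have h7 : l ∣ 2 ^ 2 := by simpa using h6
      have h8 := hl.1.1.dvd_of_dvd_pow h7
      have h9 := (Nat.prime_dvd_prime_iff_eq hl.1.1 Nat.prime_two).1 h8
      subst h9
      have := hl.1.2.1
      omega
    exact ((Nat.Prime.coprime_iff_not_dvd hl.1.1).2 h5).symm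
  have hL0 : L ≠ 0 := by
    intro h0
    rw [h0] at hL2
    norm_num at hL2
  have h4n : Nat.Coprime 4 n := by
    rw [Nat.coprime_comm, Nat.Coprime, Nat.gcd_rec]
    have : (4 : ℕ) = 2 ^ 2 := by norm_num
    rw [← Nat.gcd_rec]
    exact (Nat.Coprime.pow_right 2 (Nat.coprime_two_right.2 (Nat.odd_iff.2 (by omega))) : Nat.Coprime n (2 ^ 2))
  -- the inverse of `p`
  have hpn : IsCoprime (p : ℤ) (n : ℤ) := by
    obtain ⟨x, hx⟩ := hp
    have : (p : ℤ) = r + n * x := by linear_combination hx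
    rw [this]
    exact hc.symm.add_mul_left_left x
  obtain ⟨u, v, huv⟩ := hpn
  have i4L : IsCoprime (4 : ℤ) (L : ℤ) := by exact_mod_cast Nat.isCoprime_iff_coprime.2 hL2
  have i4n : IsCoprime (4 : ℤ) (n : ℤ) := by exact_mod_cast Nat.isCoprime_iff_coprime.2 h4n
  have iLn : IsCoprime (L : ℤ) (n : ℤ) := Nat.isCoprime_iff_coprime.2 hLn.symm
  obtain ⟨x1, hx1, hx2⟩ := crt2 i4L 1 (-1)
  obtain ⟨x, hx3, hx4⟩ := crt2 (i4n.mul_left iLn : IsCoprime (4 * (L : ℤ)) (n : ℤ)) x1 (-u)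
  have hx5 : (4 : ℤ) ∣ x - 1 := by
    have := dvd_add ((Dvd.intro _ rfl : (4 : ℤ) ∣ 4 * L).trans hx3) hx1
    rwa [sub_add_sub_cancel] at this
  have hx6 : (L : ℤ) ∣ x + 1 := by
    have := dvd_add ((Dvd.intro_left _ rfl : (L : ℤ) ∣ 4 * L).trans hx3) hx2
    rwa [sub_add_sub_cancel, sub_neg_eq_add] at this
  have hx7 : (n : ℤ) ∣ 1 + p * x := by
    obtain ⟨c, hc'⟩ := hx4
    exact ⟨p * c + v, by linear_combination (p : ℤ) * hc' - huv⟩
  have j4 : IsCoprime x 4 := by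
    obtain ⟨c, hc'⟩ := hx5
    exact ⟨1, -c, by linear_combination hc'⟩
  have jL : IsCoprime x (L : ℤ) := by
    obtain ⟨c, hc'⟩ := hx6
    exact ⟨-1, c, by linear_combination -hc'⟩
  have jn : IsCoprime x (n : ℤ) := by
    obtain ⟨c, hc'⟩ := hx7
    exact ⟨-p, c, by linear_combination -hc'⟩
  have jall : IsCoprime x ((4 * L * n : ℕ) : ℤ) := by
    push_cast
    exact (j4.mul_right jL).mul_right jn
  obtain ⟨q, hq1, hq2, hq3⟩ := Nat.forall_exists_prime_gt_and_zmodEq B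
    (Nat.mul_ne_zero (Nat.mul_ne_zero (by norm_num) hL0) (by omega) : 4 * L * n ≠ 0) jall
  have h9 : ((4 * L * n : ℕ) : ℤ) ∣ q - x := (Int.modEq_iff_dvd.1 hq3.symm)
  push_cast at h9
  have k4 : (4 : ℤ) ∣ q - 1 := by
    have := dvd_add ((Dvd.intro (L * n : ℤ) (by ring) : (4 : ℤ) ∣ 4 * L * n).trans h9) hx5
    rwa [sub_add_sub_cancel] at this
  have kL : (L : ℤ) ∣ q + 1 := by
    have := dvd_add ((Dvd.intro (4 * n : ℤ) (by ring) : (L : ℤ) ∣ 4 * L * n).trans h9) hx6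
    have e : (q : ℤ) - x + (x + 1) = q + 1 := by ring
    rwa [e] at this
  have kn : (n : ℤ) ∣ 1 + p * q := by
    have := dvd_add (((Dvd.intro (4 * L : ℤ) (by ring) : (n : ℤ) ∣ 4 * L * n).trans h9).mul_left (p : ℤ)) hx7
    have e : (p : ℤ) * (q - x) + (1 + p * x) = 1 + p * q := by ring
    rwa [e] at this
  have hq0 := hq2.one_lt
  refine ⟨q, hq2, by omega, hq1, kn, ?_⟩
  refine Nat.Coprime.symm (Nat.Coprime.symm ?_)
  by_contra hnc
  obtain ⟨l, hl, hlm, hlq⟩ := Nat.Prime.not_coprime_iff_dvd.1 hnc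
  have hlq' : (l : ℤ) ∣ q - 1 := by
    have := Int.natCast_dvd_natCast.2 hlq
    rw [Nat.cast_sub (by omega)] at this
    exact_mod_cast this
  have hl2 : l ≠ 2 := by
    intro h
    subst h
    omega
  have hlp : Prime (l : ℤ) := Nat.prime_iff_prime_int.1 hl
  by_cases hln : l ∣ n
  · have hln' : (l : ℤ) ∣ n := Int.natCast_dvd_natCast.2 hln
    have h10 : (l : ℤ) ∣ r + 1 := by
      obtain ⟨c1, e1⟩ := hln'.trans kn
      obtain ⟨c2, e2⟩ := hln'.trans hp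
      obtain ⟨c3, e3⟩ := hlq'
      exact ⟨c1 - c2 - p * c3, by linear_combination e1 - e2 - (p : ℤ) * e3⟩
    exact hlp.not_isUnit (hc1.isUnit_of_dvd' hln' h10)
  · have hlL : l ∣ L := by
      refine Finset.dvd_prod_of_mem (fun l => l) ?_
      rw [Finset.mem_filter, Nat.mem_primeFactors]
      exact ⟨⟨hl, hlm, by omega⟩, hln⟩
    have h11 : (l : ℤ) ∣ q + 1 := (Int.natCast_dvd_natCast.2 hlL).trans kL
    have h12 := dvd_sub h11 hlq'
    have h13 : (l : ℤ) ∣ 2 := by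
      have e : (q : ℤ) + 1 - (q - 1) = 2 := by ring
      rwa [e] at h12
    have h14 : l ∣ 2 := by exact_mod_cast h13
    exact hl2 ((Nat.prime_dvd_prime_iff_eq hl Nat.prime_two).1 h14)

theorem coprime_of_norm_lt {z : G} {q : ℕ} (hq : q.Prime) (hz : z ≠ 0)
    (hlt : (Zsqrtd.norm z).natAbs < q) : IsCoprime z (q : G) := by
  have h0 : (Zsqrtd.norm z).natAbs ≠ 0 := by
    intro h
    have h1 : Zsqrtd.norm z = 0 := by omega
    rw [norm_def'] at h1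
    apply hz
    have h2 : z.re = 0 := by nlinarith [sq_nonneg z.re, sq_nonneg z.im]
    have h3 : z.im = 0 := by nlinarith [sq_nonneg z.re, sq_nonneg z.im]
    ext
    · exact h2
    · exact h3
  have h1 : ¬ q ∣ (Zsqrtd.norm z).natAbs := fun h => by
    have := Nat.le_of_dvd (by omega) h
    omega
  have h2 : Nat.Coprime q (Zsqrtd.norm z).natAbs := (Nat.Prime.coprime_iff_not_dvd hq).2 h1
  have h3 : IsCoprime (q : ℤ) (Zsqrtd.norm z) := by
    rw [Int.isCoprime_iff_gcd_eq_one]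
    rw [Int.gcd_def]
    simpa using h2
  obtain ⟨u, v, huv⟩ := h3
  have h4 : ((u : ℤ) : G) * ((q : ℤ) : G) + (v : G) * ((Zsqrtd.norm z : ℤ) : G) = 1 := by
    exact_mod_cast congrArg (fun t : ℤ => (t : G)) huv
  rw [Zsqrtd.norm_eq_mul_conj] at h4
  refine ⟨(v : G) * star z, (u : G), ?_⟩
  push_cast at h4
  linear_combination h4

/-- the arithmetic reduction -/
theorem AR {a0 b0 : G} (h : IsCoprime a0 b0) : ∃ (t s t' w k ε ε' a1 b1 a2 a3 b3 : G) (α : SL2 G)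
    (e : ℕ), a1 = a0 + t * b0 ∧ b1 = b0 + s * a1 ∧ a2 = a1 + t' * b1 ∧ a3 = -b1 + w * a2 ∧
      b3 = a2 + k * a3 ∧ ε * ε' = 1 ∧ α 0 0 = a3 * ε ∧ α 0 1 = b3 * ε' ∧ α 0 1 ≠ 0 ∧ α 1 0 ≠ 0 ∧
      IsCoprime ((α 0 0) ^ 2 - 1) (α 0 1) ∧ IsCoprime ((α 0 0) ^ 2 - 1) (α 1 0) ∧
      α 0 1 ∣ (α 0 0) ^ (e + 1) - 1 ∧ α 1 0 ∣ (α 0 0) ^ e - 1 := by
  obtain ⟨t, ht⟩ : ∃ t, a0 + t * b0 ≠ 0 := by
    by_cases h0 : a0 = 0
    · refine ⟨1, ?_⟩
      rw [h0, zero_add, one_mul]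
      rintro rfl
      rw [h0] at h
      exact not_isCoprime_zero_zero h
    · exact ⟨0, by rw [zero_mul, add_zero]; exact h0⟩
  have hc1 : IsCoprime (a0 + t * b0) b0 := h.add_mul_right_left t
  obtain ⟨s, hs1, hs2⟩ := step1 ht hc1
  set a1 := a0 + t * b0 with ha1
  have hc2 : IsCoprime a1 (b0 + s * a1) := hc1.add_mul_right_right s
  set b1 := b0 + s * a1 with hb1
  obtain ⟨t', r, hr1, hr2, hr3⟩ := step2 (a := a1) hs1 hs2
  have hc3 : IsCoprime (r : G) b1 := by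
    rw [← hr1]
    exact hc2.add_mul_right_left t'
  obtain ⟨w, n, hn1, hn2, hn3, hn4, hn5, hn6⟩ := step3 hs2 hr2 hr3 hc3.symm
  set a3 := -b1 + w * (r : G) with ha3
  obtain ⟨p, hp1, hp2, hp3, hp4, hp5⟩ := step5 hn2 hn3 hn5 hn6
    ((Zsqrtd.norm (a3 ^ 4 - 1)).natAbs)
  obtain ⟨m, ε, ε', he1, he2, hm0, hm1, hm2⟩ := step6 hn1 hp1 hp2 hp5
  obtain ⟨q, hq1, hq2, hq3, hq4, hq5⟩ := step8 hn2 hn3 hm1 hn5 hn4 hp4
    ((Zsqrtd.norm (a3 ^ 4 - 1)).natAbs)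
  -- `b3`
  obtain ⟨k, hk⟩ := hp4
  have hb3 : (p : G) = (r : G) + ((k : ℤ) : G) * star a3 * a3 := by
    have h1 : ((p : ℤ) : G) - (r : G) = ((n : ℤ) : G) * ((k : ℤ) : G) := by exact_mod_cast congrArg (fun t : ℤ => (t : G)) hk
    rw [← hn1, Zsqrtd.norm_eq_mul_conj] at h1
    push_cast at h1
    linear_combination h1
  -- `d`
  obtain ⟨d, hd⟩ := hq4
  have hd' : a3 * (star a3 * ((d : ℤ) : G)) = 1 + (p : G) * (q : G) := by
    have h1 : (1 : G) + ((p : ℤ) : G) * ((q : ℤ) : G) = ((n : ℤ) : G) * ((d : ℤ) : G) := by exact_mod_cast congrArg (fun t : ℤ => (t : G)) hd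
    rw [← hn1, Zsqrtd.norm_eq_mul_conj] at h1
    push_cast at h1
    linear_combination -h1
  have hdet : (a3 * ε) * (star a3 * ((d : ℤ) : G) * ε') - ((p : G) * ε') * ((q : G) * ε) = 1 := by
    linear_combination (ε * ε') * hd' + he1
  -- `a3` is not a unit
  have hz : a3 ^ 4 - 1 ≠ 0 := by
    intro h0
    have h1 : a3 * a3 ^ 3 = 1 := by linear_combination h0
    have h2 : IsUnit a3 := IsUnit.of_mul_eq_one _ h1
    have h3 := Zsqrtd.norm_eq_one_iff.2 h2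
    rw [hn1] at h3
    simp at h3
    omega
  have hsq : ∀ x : ℕ, x.Prime → (Zsqrtd.norm (a3 ^ 4 - 1)).natAbs < x →
      IsCoprime ((a3 * ε) ^ 2 - 1) (x : G) := by
    intro x hx1 hx2
    have h1 := coprime_of_norm_lt hx1 hz hx2
    have h2 : a3 ^ 4 - 1 = ((a3 * ε) ^ 2 - 1) * ((a3 * ε) ^ 2 + 1) := by
      linear_combination (-a3 ^ 4) * he2
    rw [h2] at h1
    exact h1.of_mul_left_left
  have hε : IsUnit ε := IsUnit.of_mul_eq_one _ he1
  have hε' : IsUnit ε' := IsUnit.of_mul_eq_one ε (by rw [mul_comm]; exact he1)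
  have hpG : (p : G) ≠ 0 := by
    have := hp1.ne_zero
    exact_mod_cast this
  have hqG : (q : G) ≠ 0 := by
    have := hq1.ne_zero
    exact_mod_cast this
  -- exponents
  have hq1' := hq1.one_lt
  obtain ⟨e, he3, he4⟩ : ∃ e, m ∣ e + 1 ∧ (q - 1) ∣ e := by
    obtain ⟨e, h1, h2⟩ := Nat.chineseRemainder hq5 (m - 1) 0
    refine ⟨e, ?_, ?_⟩
    · have h3 : e + 1 ≡ (m - 1) + 1 [MOD m] := h1.add_right 1
      rw [Nat.sub_add_cancel hm0] at h3
      exact (Nat.modEq_zero_iff_dvd).1 (h3.trans (by simp [Nat.ModEq]))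
    · exact (Nat.modEq_zero_iff_dvd).1 h2
  refine ⟨t, s, t', w, ((k : ℤ) : G) * star a3, ε, ε', a1, b1, (r : G), a3, (p : G),
    m4 (a3 * ε) ((p : G) * ε') ((q : G) * ε) (star a3 * ((d : ℤ) : G) * ε') hdet, e,
    rfl, rfl, hr1.symm, rfl, hb3, he1, rfl, rfl, ?_, ?_, ?_, ?_, ?_, ?_⟩
  · exact mul_ne_zero hpG hε'.ne_zero
  · exact mul_ne_zero hqG hε.ne_zero
  · exact (isCoprime_mul_unit_right_right hε' _ _).2 (hsq p hp1 hp3)
  · exact (isCoprime_mul_unit_right_right hε _ _).2 (hsq q hq1 hq3)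
  · simp only [m4_00, m4_01]
    rw [hε'.mul_right_dvd]
    obtain ⟨x, hx⟩ := he3
    rw [hx, pow_mul]
    exact dvd_pow_sub_one' hm2 x
  · simp only [m4_00, m4_10]
    rw [hε.mul_right_dvd]
    obtain ⟨x, hx⟩ := he4
    rw [hx, pow_mul]
    refine dvd_pow_sub_one' ?_ x
    have h1 := frob1 q hq1 hq2 (a3 * ε)
    have h2 : IsCoprime (q : G) (a3 * ε) := by
      refine ⟨-((p : G) * ε') * ε, star a3 * ((d : ℤ) : G) * ε', ?_⟩
      linear_combination hdet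
    refine h2.dvd_of_dvd_mul_left (?_ : (q : G) ∣ (a3 * ε) * ((a3 * ε) ^ (q - 1) - 1))
    have h3 : (a3 * ε) * ((a3 * ε) ^ (q - 1) - 1) = (a3 * ε) ^ q - (a3 * ε) := by
      have h4 : (a3 * ε) ^ q = (a3 * ε) * (a3 * ε) ^ (q - 1) := by
        rw [← pow_succ', Nat.sub_add_cancel (by omega)]
      rw [h4]; ring
    rw [h3]
    exact h1

end Pool.Agent.T2H57.PP
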