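import Mathlib

/-!
# Polynomial families in `SL(2, K)`

`A` is a commutative domain, `K` a commutative `A`-algebra.  `Bdd A K` is the subgroup of
`SL(2, K)` of the values of polynomial families `P ∈ SL(2, A[X_1, …, X_k])` with `P(0) = 1`.
It is normal.
-/

set_option autoImplicit false

open Matrix MvPolynomial

namespace Pool.Agent.T2H57.PP

/-- abbreviation -/
abbrev SL2 (R : Type) [CommRing R] := Matrix.SpecialLinearGroup (Fin 2) R

variable {A : Type} [CommRing A] {K : Type} [CommRing K] [Algebra A K]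

/-- the value of a polynomial family at `t` -/
noncomputable def ev {σ : Type} (t : σ → K) : SL2 (MvPolynomial σ A) →* SL2 K :=
  Matrix.SpecialLinearGroup.map (aeval t : MvPolynomial σ A →ₐ[A] K).toRingHom

/-- the value at zero -/
noncomputable def c0 {σ : Type} : SL2 (MvPolynomial σ A) →* SL2 A :=
  Matrix.SpecialLinearGroup.map (constantCoeff : MvPolynomial σ A →+* A)

theorem ev_apply {σ : Type} (t : σ → K) (P : SL2 (MvPolynomial σ A)) (i j : Fin 2) :
    (ev t P) i j = aeval t (P i j) := rfl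

theorem c0_apply {σ : Type} (P : SL2 (MvPolynomial σ A)) (i j : Fin 2) :
    (c0 P) i j = constantCoeff (P i j) := rfl

theorem constantCoeff_rename {σ τ : Type} (f : σ → τ) (p : MvPolynomial σ A) :
    constantCoeff (rename f p) = constantCoeff p := by
  induction p using MvPolynomial.induction_on with
  | C a => simp
  | add p q hp hq => simp [hp, hq]
  | mul_X p s hp => simp

/-- renaming of variables -/
noncomputable def rn {σ τ : Type} (f : σ → τ) : SL2 (MvPolynomial σ A) →* SL2 (MvPolynomial τ A) :=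
  Matrix.SpecialLinearGroup.map (rename f : MvPolynomial σ A →ₐ[A] MvPolynomial τ A).toRingHom

theorem c0_rn {σ τ : Type} (f : σ → τ) (P : SL2 (MvPolynomial σ A)) : c0 (rn f P) = c0 P := by
  ext i j
  exact constantCoeff_rename f _

theorem ev_rn {σ τ : Type} (f : σ → τ) (P : SL2 (MvPolynomial σ A)) (t : τ → K) :
    ev t (rn f P) = ev (t ∘ f) P := by
  ext i j
  exact aeval_rename f t _

variable (A K)

/-- the values of polynomial families through `1` -/
noncomputable def Bdd : Subgroup (SL2 K) where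
  carrier := {g | ∃ (σ : Type) (_ : Finite σ) (P : SL2 (MvPolynomial σ A)) (t : σ → K),
    c0 P = 1 ∧ ev t P = g}
  one_mem' := ⟨Empty, inferInstance, 1, Empty.elim, map_one _, map_one _⟩
  mul_mem' := by
    rintro g h ⟨σ, hσ, P, t, hP, hg⟩ ⟨τ, hτ, Q, s, hQ, hh⟩
    refine ⟨σ ⊕ τ, inferInstance, rn Sum.inl P * rn Sum.inr Q, Sum.elim t s, ?_, ?_⟩
    · rw [map_mul, c0_rn, c0_rn, hP, hQ, one_mul]
    · rw [map_mul, ev_rn, ev_rn, Sum.elim_comp_inl, Sum.elim_comp_inr, hg, hh]
  inv_mem' := by
    rintro g ⟨σ, hσ, P, t, hP, hg⟩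
    exact ⟨σ, hσ, P⁻¹, t, by rw [map_inv, hP, inv_one], by rw [map_inv, hg]⟩

variable {A K}

theorem mem_Bdd {g : SL2 K} : g ∈ Bdd A K ↔ ∃ (σ : Type) (_ : Finite σ) (P : SL2 (MvPolynomial σ A))
    (t : σ → K), c0 P = 1 ∧ ev t P = g := Iff.rfl

/-- scaling of the variables by `D` -/
theorem dvd_scale {σ S : Type} [CommRing S] [Algebra A S] (D : S) (x : σ → S)
    (p : MvPolynomial σ A) :
    D ∣ aeval (fun s => D * x s) p - algebraMap A S (constantCoeff p) := by
  induction p using MvPolynomial.induction_on with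
  | C a => simp
  | add p q hp hq =>
    have h := dvd_add hp hq
    rw [map_add, map_add, map_add]
    convert h using 1
    ring
  | mul_X p s hp =>
    rw [map_mul, aeval_X, map_mul, constantCoeff_X, mul_zero, map_zero, sub_zero]
    exact Dvd.intro_left (aeval (fun s => D * x s) p * x s) (by ring)

theorem one_map_dvd {S : Type} [CommRing S] {P : Matrix (Fin 2) (Fin 2) S} {D : S}
    (h : ∀ i j, D ∣ P i j - (1 : Matrix (Fin 2) (Fin 2) S) i j) :
    ∃ M : Matrix (Fin 2) (Fin 2) S, P = 1 + D • M := by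
  choose M hM using h
  refine ⟨Matrix.of M, ?_⟩
  ext i j
  rw [Matrix.add_apply, Matrix.smul_apply, Matrix.of_apply, smul_eq_mul, ← hM]
  ring

/-- the family conjugated by a variable matrix -/
theorem det_conj {S : Type} [CommRing S] [IsDomain S] {G M P : Matrix (Fin 2) (Fin 2) S}
    (hG : G.det ≠ 0) (hP : P = 1 + G.det • M) (hdet : P.det = 1) :
    (1 + G * M * G.adjugate).det = 1 := by
  have h1 : G.det • (1 + G * M * G.adjugate) = G * P * G.adjugate := by
    rw [hP, Matrix.mul_add, Matrix.add_mul, Matrix.mul_one, Matrix.mul_adjugate, smul_add,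
      Matrix.mul_smul, Matrix.smul_mul]
  have h2 := congrArg Matrix.det h1
  rw [Matrix.det_smul, Matrix.det_mul, Matrix.det_mul, hdet, Matrix.det_adjugate] at h2
  simp only [Fintype.card_fin, mul_one] at h2
  have h3 : G.det ^ 2 ≠ 0 := pow_ne_zero _ hG
  apply mul_left_cancel₀ h3
  rw [h2]
  ring

theorem adj_eq (g : SL2 K) : (g : Matrix (Fin 2) (Fin 2) K).adjugate =
    ((g⁻¹ : SL2 K) : Matrix (Fin 2) (Fin 2) K) := (Matrix.SpecialLinearGroup.coe_inv g).symm

instance [IsDomain A] : (Bdd A K).Normal := by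
  refine ⟨?_⟩
  rintro g ⟨σ, hσ, P, t, hP, hg⟩ α
  let τ := (Fin 2 × Fin 2) ⊕ σ
  let S := MvPolynomial τ A
  let G : Matrix (Fin 2) (Fin 2) S := Matrix.of fun i j => X (Sum.inl (i, j))
  let f : MvPolynomial σ A →ₐ[A] S := aeval (fun s => G.det * X (Sum.inr s))
  let PD : SL2 S := Matrix.SpecialLinearGroup.map f.toRingHom P
  have h1 : ∀ i j, G.det ∣ (PD : Matrix (Fin 2) (Fin 2) S) i j - (1 : Matrix (Fin 2) (Fin 2) S) i j := by
    intro i j
    have h2 := dvd_scale G.det (fun s => (X (Sum.inr s) : S)) (P i j)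
    have h3 : constantCoeff (P i j) = (1 : Matrix (Fin 2) (Fin 2) A) i j := by
      rw [← c0_apply, hP]; rfl
    have h4 : algebraMap A S (constantCoeff (P i j)) = (1 : Matrix (Fin 2) (Fin 2) S) i j := by
      rw [h3, Matrix.one_apply, Matrix.one_apply]
      split_ifs <;> simp
    rw [h4] at h2
    exact h2
  obtain ⟨M, hM⟩ := one_map_dvd h1
  have hG : G.det ≠ 0 := by
    intro h0
    have h5 := congrArg (aeval (Sum.elim (fun ij => (1 : Matrix (Fin 2) (Fin 2) A) ij.1 ij.2)
      (fun _ => 0)) : S →ₐ[A] A) h0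
    simp [G, Matrix.det_fin_two] at h5
  have hdet := det_conj hG hM PD.2
  let W : SL2 S := ⟨1 + G * M * G.adjugate, hdet⟩
  let tt : τ → K := Sum.elim (fun ij => α ij.1 ij.2) t
  have hGe : (aeval tt : S →ₐ[A] K).mapMatrix G = α := by
    ext i j
    simp [G, tt]
  refine ⟨τ, inferInstance, W, tt, ?_, ?_⟩
  · have h6 : (constantCoeff : S →+* A).mapMatrix G = 0 := by
      ext i j
      simp [G]
    have h7 : (constantCoeff : S →+* A).mapMatrix (1 + G * M * G.adjugate) = 1 := by
      rw [map_add, map_mul, map_mul, h6, map_one, zero_mul, zero_mul, add_zero]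
    ext i j
    exact congrFun (congrFun h7 i) j
  · have hGd : (aeval tt : S →ₐ[A] K) G.det = 1 := by
      rw [AlgHom.map_det, hGe, α.2]
    have h8 : (aeval tt : S →ₐ[A] K).mapMatrix (PD : Matrix (Fin 2) (Fin 2) S) = g := by
      ext i j
      have h9 : (aeval tt : S →ₐ[A] K) (f (P i j)) = aeval t (P i j) := by
        have h10 : ((aeval tt : S →ₐ[A] K).comp f) = aeval t := by
          ext s
          simp only [f, AlgHom.comp_apply, aeval_X, map_mul, hGd, tt, Sum.elim_inr, one_mul]
        rw [← h10]; rfl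
      rw [← hg]
      exact h9
    have h11 : (aeval tt : S →ₐ[A] K).mapMatrix M = (g : Matrix (Fin 2) (Fin 2) K) - 1 := by
      rw [← h8, hM, map_add, map_one, add_sub_cancel_left]
      ext i j
      simp [hGd]
    have h12 : (aeval tt : S →ₐ[A] K).mapMatrix (1 + G * M * G.adjugate) = (α * g * α⁻¹ : SL2 K) := by
      rw [map_add, map_one, map_mul, map_mul, hGe, h11]
      have h13 : (aeval tt : S →ₐ[A] K).mapMatrix G.adjugate = (α⁻¹ : SL2 K) := by
        rw [AlgHom.map_adjugate, hGe, adj_eq]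
      rw [h13, Matrix.mul_sub, Matrix.sub_mul, Matrix.mul_one]
      have h14 : (α : Matrix (Fin 2) (Fin 2) K) * ((α⁻¹ : SL2 K) : Matrix (Fin 2) (Fin 2) K) = 1 := by
        rw [← Matrix.SpecialLinearGroup.coe_mul, mul_inv_cancel, Matrix.SpecialLinearGroup.coe_one]
      rw [h14, Matrix.SpecialLinearGroup.coe_mul, Matrix.SpecialLinearGroup.coe_mul]
      abel
    ext i j
    exact congrFun (congrFun h12 i) j

end Pool.Agent.T2H57.PP
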