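import Pool.Agent.T2H57.PP.Row

/-!
# Divisibility facts in the Gaussian integers
-/

set_option autoImplicit false

namespace Pool.Agent.T2H57.PP

/-- the Gaussian integers -/
abbrev G := GaussianInt

/-- `i` -/
def I : G := ⟨0, 1⟩

theorem I_mul : I * I = -1 := by
  ext <;> simp [I]

/-- `1 + i` -/
def lam : G := ⟨1, 1⟩

theorem norm_def' (z : G) : Zsqrtd.norm z = z.re ^ 2 + z.im ^ 2 := by
  rw [Zsqrtd.norm_def]; ring

theorem lam_dvd_iff (z : G) : lam ∣ z ↔ (z.re + z.im) % 2 = 0 := by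
  constructor
  · rintro ⟨w, hw⟩
    have h1 := congrArg Zsqrtd.re hw
    have h2 := congrArg Zsqrtd.im hw
    simp [lam, Zsqrtd.re_mul, Zsqrtd.im_mul] at h1 h2
    omega
  · intro h
    refine ⟨⟨(z.re + z.im) / 2, (z.im - z.re) / 2⟩, ?_⟩
    ext
    · simp only [lam, Zsqrtd.re_mul]
      omega
    · simp only [lam, Zsqrtd.im_mul]
      omega

theorem lam_dvd_iff_norm (z : G) : lam ∣ z ↔ (Zsqrtd.norm z) % 2 = 0 := by
  rw [lam_dvd_iff, norm_def']
  constructor
  · intro h
    have h1 : (z.re ^ 2 + z.im ^ 2) = (z.re + z.im) ^ 2 - 2 * (z.re * z.im) := by ring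
    obtain ⟨k, hk⟩ : (2 : ℤ) ∣ z.re + z.im := Int.dvd_of_emod_eq_zero h
    rw [h1, hk]
    have : (2 * k) ^ 2 - 2 * (z.re * z.im) = 2 * (2 * k ^ 2 - z.re * z.im) := by ring
    rw [this]
    exact Int.mul_emod_right 2 _
  · intro h
    have h1 : (z.re + z.im) ^ 2 % 2 = 0 := by
      have h2 : (z.re + z.im) ^ 2 = (z.re ^ 2 + z.im ^ 2) + 2 * (z.re * z.im) := by ring
      rw [h2]
      omega
    have h3 : (2 : ℤ) ∣ (z.re + z.im) ^ 2 := Int.dvd_of_emod_eq_zero h1
    exact Int.emod_eq_zero_of_dvd (Int.prime_two.dvd_of_dvd_pow h3)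

theorem lam_prime : Prime lam := by
  refine ⟨fun h => ?_, fun h => ?_, fun a b h => ?_⟩
  · have := congrArg Zsqrtd.re h
    simp [lam] at this
  · rw [← Zsqrtd.norm_eq_one_iff] at h
    rw [norm_def'] at h
    simp [lam] at h
  · rw [lam_dvd_iff_norm, Zsqrtd.norm_mul] at h
    rw [lam_dvd_iff_norm, lam_dvd_iff_norm]
    have h1 : (2 : ℤ) ∣ Zsqrtd.norm a * Zsqrtd.norm b := Int.dvd_of_emod_eq_zero h
    rcases Int.prime_two.dvd_or_dvd h1 with h2 | h2
    · left; exact Int.emod_eq_zero_of_dvd h2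
    · right; exact Int.emod_eq_zero_of_dvd h2

theorem lam_ne : lam ≠ 0 := lam_prime.ne_zero

theorem two_eq : (2 : G) = -I * lam ^ 2 := by
  ext <;> simp [I, lam, pow_two]

theorem coprime_two {v : G} (h : ¬ lam ∣ v) : IsCoprime 2 v := by
  have h1 : IsCoprime lam v := (lam_prime.irreducible.coprime_iff_not_dvd).2 h
  have h2 : IsCoprime (lam ^ 2) v := h1.pow_left
  rw [two_eq]
  have h3 : IsUnit (-I) := by
    refine IsUnit.of_mul_eq_one I ?_
    have := I_mul
    linear_combination -this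
  exact (isCoprime_mul_unit_left_left h3 _ _).2 h2

theorem norm_lam_pow (k : ℕ) : Zsqrtd.norm (lam ^ k) = 2 ^ k := by
  induction k with
  | zero => simp
  | succ k ih =>
    rw [pow_succ, Zsqrtd.norm_mul, ih, pow_succ, norm_def' lam]
    simp [lam]

theorem norm_assoc {a b : G} (h : Associated a b) : Zsqrtd.norm a = Zsqrtd.norm b := by
  obtain ⟨u, rfl⟩ := h
  rw [Zsqrtd.norm_mul]
  have h1 : (Zsqrtd.norm (u : G)).natAbs = 1 := Zsqrtd.norm_eq_one_iff.2 u.isUnit
  have h2 : 0 ≤ Zsqrtd.norm (u : G) := by rw [norm_def']; positivity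
  have h3 : Zsqrtd.norm (u : G) = 1 := by omega
  rw [h3, mul_one]

theorem lam_half {x : G} {j : ℕ} (h : lam ^ (2 * j) ∣ (x - 1) * (x + 1)) :
    ∃ e m : G, e * e = 1 ∧ x = e + lam ^ j * m := by
  obtain ⟨d1, d2, h1, h2, h3⟩ := exists_dvd_and_dvd_of_dvd_mul h
  obtain ⟨i1, -, hi1⟩ := (dvd_prime_pow lam_prime _).1 (Dvd.intro _ h3.symm : d1 ∣ lam ^ (2 * j))
  obtain ⟨i2, -, hi2⟩ := (dvd_prime_pow lam_prime _).1 (Dvd.intro_left _ h3.symm : d2 ∣ lam ^ (2 * j))
  have h4 : i1 + i2 = 2 * j := by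
    have h5 := congrArg Zsqrtd.norm h3
    rw [Zsqrtd.norm_mul, norm_assoc hi1, norm_assoc hi2, norm_lam_pow, norm_lam_pow, norm_lam_pow,
      ← pow_add] at h5
    exact (Int.pow_right_injective (by norm_num) h5).symm
  rcases le_or_gt j i1 with h6 | h6
  · have h7 : lam ^ j ∣ x - 1 := (pow_dvd_pow lam h6).trans ((hi1.symm.dvd).trans h1)
    obtain ⟨m, hm⟩ := h7
    exact ⟨1, m, by ring, by linear_combination hm⟩
  · have h7 : lam ^ j ∣ x + 1 := (pow_dvd_pow lam (by omega : j ≤ i2)).trans ((hi2.symm.dvd).trans h2)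
    obtain ⟨m, hm⟩ := h7
    exact ⟨-1, m, by ring, by linear_combination hm⟩

/-- splitting of a divisor of `x² - 1` -/
theorem split {x y : G} (h : y ∣ x ^ 2 - 1) : ∃ (η : G) (j : ℕ) (e m u v a' w : G), η * η = 1 ∧
    e * e = 1 ∧ y * η = (lam ^ j) ^ 2 * (u * v) ∧ x * η = e + lam ^ j * m ∧ x * η + 1 = u * a' ∧
    x * η = 1 + v * w ∧ IsCoprime 2 v := by
  by_cases hy : y = 0
  · subst hy
    have h1 : (x - 1) * (x + 1) = 0 := by
      have := zero_dvd_iff.1 h
      linear_combination this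
    rcases mul_eq_zero.1 h1 with h2 | h2
    · refine ⟨-1, 0, -1, 0, 0, 1, 0, -2, by ring, by ring, by ring, ?_, ?_, ?_, isCoprime_one_right⟩
      · linear_combination -h2
      · linear_combination -h2
      · linear_combination -h2
    · refine ⟨1, 0, -1, 0, 0, 1, 0, -2, by ring, by ring, by ring, ?_, ?_, ?_, isCoprime_one_right⟩
      · linear_combination h2
      · linear_combination h2
      · linear_combination h2
  · obtain ⟨w, hw, hk⟩ := (FiniteMultiplicity.of_prime_left lam_prime hy).exists_eq_pow_mul_and_not_dvd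
    generalize multiplicity lam y = k at hw
    obtain ⟨j, hj⟩ : ∃ j, k = 2 * j ∨ k = 2 * j + 1 := by
      rcases Nat.even_or_odd' k with ⟨j, hj | hj⟩
      · exact ⟨j, Or.inl hj⟩
      · exact ⟨j, Or.inr hj⟩
    have h0 : y ∣ (x - 1) * (x + 1) := by
      convert h using 1; ring
    have hwd : w ∣ (x + 1) * (x - 1) := by
      rw [mul_comm]
      exact (Dvd.intro_left _ hw.symm).trans h0
    obtain ⟨u, v, hu, hv, huv⟩ := exists_dvd_and_dvd_of_dvd_mul hwd
    have h2j : lam ^ (2 * j) ∣ (x - 1) * (x + 1) := by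
      refine ((pow_dvd_pow lam (by omega : 2 * j ≤ k)).trans ?_).trans h0
      exact Dvd.intro _ hw.symm
    obtain ⟨e, m, he, hm⟩ := lam_half h2j
    have hv2 : ¬ lam ∣ v := fun h5 => hk (by rw [huv]; exact h5.mul_left _)
    have hu2 : ¬ lam ∣ u := fun h5 => hk (by rw [huv]; exact h5.mul_right _)
    obtain ⟨w', hw'⟩ := hv
    rcases hj with hj | hj
    · obtain ⟨a', ha'⟩ := hu
      refine ⟨1, j, e, m, u, v, a', w', by ring, he, ?_, by rw [mul_one]; exact hm,
        by rw [mul_one]; exact ha', by linear_combination hw', coprime_two hv2⟩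
      rw [hw, hj, huv]; ring
    · have hlam : lam ∣ x + 1 := by
        have h6 : lam ∣ (x - 1) * (x + 1) := by
          refine (Dvd.intro_left (lam ^ (2 * j) * w) ?_ : lam ∣ y).trans h0
          rw [hw, hj]; ring
        rcases lam_prime.dvd_or_dvd h6 with h7 | h7
        · have h8 : lam ∣ (2 : G) := by rw [two_eq]; exact Dvd.intro_left (-I * lam) (by ring)
          have h9 : x + 1 = (x - 1) + 2 := by ring
          rw [h9]
          exact dvd_add h7 h8
        · exact h7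
      have hc : IsCoprime lam u := (lam_prime.irreducible.coprime_iff_not_dvd).2 hu2
      obtain ⟨a', ha'⟩ := hc.mul_dvd hlam hu
      refine ⟨1, j, e, m, lam * u, v, a', w', by ring, he, ?_, by rw [mul_one]; exact hm,
        by rw [mul_one]; exact ha', by linear_combination hw', coprime_two hv2⟩
      rw [hw, hj, huv]; ring

end Pool.Agent.T2H57.PP
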