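import Pool.Agent.T2H57.PP.Univ

/-!
# Definite binary Hermitian forms of determinant one
-/

set_option autoImplicit false

open Matrix MvPolynomial

namespace Pool.Agent.T2H57.PP

theorem lagrange (g : SL2 G) : (Zsqrtd.norm (g 0 0) + Zsqrtd.norm (g 0 1)) *
    (Zsqrtd.norm (g 1 0) + Zsqrtd.norm (g 1 1)) =
    Zsqrtd.norm (g 0 0 * star (g 1 0) + g 0 1 * star (g 1 1)) + 1 := by
  have h := congrArg Zsqrtd.norm (det_eq g)
  rw [Zsqrtd.norm_one] at h
  refine Eq.trans ?_ (congrArg (fun t => Zsqrtd.norm (g 0 0 * star (g 1 0) + g 0 1 * star (g 1 1)) + t) h)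
  simp only [norm_def', Zsqrtd.re_add, Zsqrtd.im_add, Zsqrtd.re_mul, Zsqrtd.im_mul,
    Zsqrtd.re_sub, Zsqrtd.im_sub, Zsqrtd.re_star, Zsqrtd.im_star]
  ring

theorem near (x z : ℤ) (hz : 0 < z) : ∃ q : ℤ, -z ≤ 2 * (x + -q * z) ∧ 2 * (x + -q * z) ≤ z := by
  refine ⟨(2 * x + z) / (2 * z), ?_, ?_⟩
  · have h1 := Int.emod_nonneg (2 * x + z) (by omega : 2 * z ≠ 0)
    have h2 := Int.mul_ediv_add_emod (2 * x + z) (2 * z)
    nlinarith
  · have h1 := Int.emod_lt_of_pos (2 * x + z) (by omega : 0 < 2 * z)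
    have h2 := Int.mul_ediv_add_emod (2 * x + z) (2 * z)
    nlinarith

theorem herm (z : ℕ) : ∀ (t : ℤ) (w : G), 0 < z → (z : ℤ) * t = 1 + Zsqrtd.norm w →
    ∃ g : SL2 G, (z : ℤ) = Zsqrtd.norm (g 0 0) + Zsqrtd.norm (g 0 1) ∧
      w = g 0 0 * star (g 1 0) + g 0 1 * star (g 1 1) := by
  induction z using Nat.strong_induction_on with
  | _ z ih =>
    intro t w hz h
    rcases Nat.lt_or_ge z 2 with h2 | h2
    · have hz1 : z = 1 := by omega
      subst hz1
      refine ⟨m4 1 0 (star w) 1 (by ring), ?_, ?_⟩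
      · simp only [m4_00, m4_01, Zsqrtd.norm_one, Zsqrtd.norm_zero]; norm_num
      · simp only [m4_00, m4_01, m4_10, m4_11, star_star, one_mul, zero_mul, add_zero]
    · obtain ⟨q1, h3, h4⟩ := near w.re z (by exact_mod_cast hz)
      obtain ⟨q2, h5, h6⟩ := near w.im z (by exact_mod_cast hz)
      set s : G := ⟨q1, q2⟩ with hs
      set w' : G := w + (-s) * ((z : ℤ) : G) with hw'
      have hre : w'.re = w.re + -q1 * z := by
        rw [hw', hs]
        simp only [Zsqrtd.re_add, Zsqrtd.re_mul, Zsqrtd.re_neg, Zsqrtd.im_neg, Zsqrtd.re_intCast,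
          Zsqrtd.im_intCast]
        ring
      have him : w'.im = w.im + -q2 * z := by
        rw [hw', hs]
        simp only [Zsqrtd.im_add, Zsqrtd.im_mul, Zsqrtd.re_neg, Zsqrtd.im_neg, Zsqrtd.re_intCast,
          Zsqrtd.im_intCast]
        ring
      have hns := norm_shift w (-s) (z : ℤ)
      rw [← hw'] at hns
      set t' : ℤ := t + (2 * (w.re * (-s).re + w.im * (-s).im) + z * Zsqrtd.norm (-s)) with ht'
      have h7 : (z : ℤ) * t' = 1 + Zsqrtd.norm w' := by
        rw [hns, ht']; linear_combination h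
      have h8 : 4 * Zsqrtd.norm w' ≤ 2 * (z : ℤ) ^ 2 := by
        rw [norm_def', hre, him]
        nlinarith
      have hzz : (2 : ℤ) ≤ z := by exact_mod_cast h2
      have h9 : 0 < t' := by
        have := norm_nonneg' w'
        by_contra hc
        nlinarith
      have h10 : t' < z := by
        by_contra hc
        nlinarith
      have h11 : ((t'.toNat : ℕ) : ℤ) = t' := Int.toNat_of_nonneg h9.le
      obtain ⟨g, h12, h13⟩ := ih t'.toNat (by omega) z (-(star w')) (by omega) (by
        rw [h11, Zsqrtd.norm_neg, Zsqrtd.norm_conj, ← h7]; ring)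
      have h14 : Zsqrtd.norm (g 1 0) + Zsqrtd.norm (g 1 1) = z := by
        have h15 := lagrange g
        rw [← h12, ← h13, Zsqrtd.norm_neg, Zsqrtd.norm_conj, h11] at h15
        have h16 : t' * (Zsqrtd.norm (g 1 0) + Zsqrtd.norm (g 1 1)) = t' * z := by
          rw [h15]; linear_combination -h7
        exact mul_left_cancel₀ (ne_of_gt h9) h16
      have hdet := det_eq g
      refine ⟨m4 (g 1 0) (g 1 1) (-(g 0 0) + star s * g 1 0) (-(g 0 1) + star s * g 1 1)
        (by linear_combination hdet), ?_, ?_⟩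
      · rw [m4_00, m4_01, h14]
      · simp only [m4_00, m4_01, m4_10, m4_11]
        have h17 : w = w' + s * ((z : ℤ) : G) := by rw [hw']; ring
        have h18 : w' = -(star (g 0 0) * (g 1 0) + star (g 0 1) * g 1 1) := by
          have := congrArg star h13
          rw [star_neg, star_star, star_add, star_mul, star_mul, star_star, star_star] at this
          linear_combination -this
        have h19 : ((z : ℤ) : G) = g 1 0 * star (g 1 0) + g 1 1 * star (g 1 1) := by
          rw [← Zsqrtd.norm_eq_mul_conj, ← Zsqrtd.norm_eq_mul_conj, ← h14]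
          push_cast
          ring
        rw [h17, h18, h19, star_add, star_add, star_neg, star_neg, star_mul, star_mul, star_star]
        ring

/-- both coefficients -/
theorem herm' {z t : ℤ} {w : G} (hz : 0 < z) (h : z * t = 1 + Zsqrtd.norm w) :
    ∃ g : SL2 G, z = Zsqrtd.norm (g 0 0) + Zsqrtd.norm (g 0 1) ∧
      t = Zsqrtd.norm (g 1 0) + Zsqrtd.norm (g 1 1) ∧
      w = g 0 0 * star (g 1 0) + g 0 1 * star (g 1 1) := by
  have h1 : ((z.toNat : ℕ) : ℤ) = z := Int.toNat_of_nonneg hz.le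
  obtain ⟨g, h2, h3⟩ := herm z.toNat t w (by omega) (by rw [h1]; exact h)
  rw [h1] at h2
  refine ⟨g, h2, ?_, h3⟩
  have h4 := lagrange g
  rw [← h2, ← h3] at h4
  have h5 : z * (Zsqrtd.norm (g 1 0) + Zsqrtd.norm (g 1 1)) = z * t := by
    rw [h4, h]; ring
  exact (mul_left_cancel₀ (ne_of_gt hz) h5).symm

end Pool.Agent.T2H57.PP
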