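import Pool.Agent.T2H57.PP.Gauss

/-!
# Powers of matrices are in boundedly many polynomial families
-/

set_option autoImplicit false

open Matrix MvPolynomial

namespace Pool.Agent.T2H57.PP

section
variable {R : Type} [CommRing R]

theorem pow_xy (γ : SL2 R) (n : ℕ) : ∃ x y : R, (γ ^ n) 0 0 = x + γ 0 0 * y ∧
    (γ ^ n) 0 1 = γ 0 1 * y ∧ (γ ^ n) 1 0 = γ 1 0 * y ∧ (γ ^ n) 1 1 = x + γ 1 1 * y ∧
    x ^ 2 + x * y * (γ 0 0 + γ 1 1) + y ^ 2 = 1 := by
  induction n with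
  | zero =>
    refine ⟨1, 0, ?_, ?_, ?_, ?_, by ring⟩ <;> simp
  | succ n ih =>
    obtain ⟨x, y, h1, h2, h3, h4, h5⟩ := ih
    have hd := det_eq γ
    refine ⟨-y, x + (γ 0 0 + γ 1 1) * y, ?_, ?_, ?_, ?_, by linear_combination h5⟩
    · rw [pow_succ, mul_00, h1, h2]
      linear_combination (-y) * hd
    · rw [pow_succ, mul_01, h1, h2]
      ring
    · rw [pow_succ, mul_10, h3, h4]
      ring
    · rw [pow_succ, mul_11, h3, h4]
      linear_combination (-y) * hd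

theorem pow_mod00 (γ : SL2 R) (n : ℕ) : γ 0 1 ∣ (γ ^ n) 0 0 - (γ 0 0) ^ n := by
  induction n with
  | zero => simp
  | succ n ih =>
    obtain ⟨x, y, h1, h2, h3, h4, h5⟩ := pow_xy γ n
    obtain ⟨c, hc⟩ := ih
    rw [pow_succ, mul_00, h2, pow_succ]
    exact ⟨c * γ 0 0 + y * γ 1 0, by linear_combination γ 0 0 * hc⟩

theorem pow_mod11 (γ : SL2 R) (n : ℕ) : γ 0 1 ∣ (γ ^ n) 1 1 - (γ 1 1) ^ n := by
  induction n with
  | zero => simp
  | succ n ih =>
    obtain ⟨x, y, h1, h2, h3, h4, h5⟩ := pow_xy γ n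
    obtain ⟨c, hc⟩ := ih
    rw [pow_succ, mul_11, h3, pow_succ]
    exact ⟨c * γ 1 1 + y * γ 1 0, by linear_combination γ 1 1 * hc⟩

theorem pow_data (γ : SL2 R) (n : ℕ) (hc : IsCoprime ((γ 0 0) ^ 2 - 1) (γ 0 1))
    (hd : γ 0 1 ∣ (γ 0 0) ^ n - 1) :
    ∃ x y m s : R, (γ ^ n) 0 0 = x + (γ 0 0 * γ 0 1) * y ∧ (γ ^ n) 0 1 = (γ 0 1) ^ 2 * y ∧
      x + (γ 0 0 * γ 0 1) * y = 1 + γ 0 1 * m ∧ x ^ 2 - 1 = y * s := by
  obtain ⟨x, y, h1, h2, h3, h4, h5⟩ := pow_xy γ n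
  obtain ⟨c0, hc0⟩ := pow_mod00 γ n
  obtain ⟨c1, hc1⟩ := pow_mod11 γ n
  obtain ⟨e, he⟩ := hd
  have hdt := det_eq γ
  -- `d^n ≡ 1`
  have h6 : γ 0 1 ∣ (γ 1 1) ^ n - 1 := by
    have h7 : γ 0 1 ∣ (γ 0 0 * γ 1 1) ^ n - 1 := by
      have h8 : γ 0 0 * γ 1 1 - 1 ∣ (γ 0 0 * γ 1 1) ^ n - 1 := by
        simpa using sub_dvd_pow_sub_pow (γ 0 0 * γ 1 1) 1 n
      exact (Dvd.intro (γ 1 0) (by linear_combination -hdt) : γ 0 1 ∣ γ 0 0 * γ 1 1 - 1).trans h8
    obtain ⟨w, hw⟩ := h7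
    rw [mul_pow] at hw
    exact ⟨w - e * (γ 1 1) ^ n, by linear_combination hw - (γ 1 1) ^ n * he⟩
  obtain ⟨e', he'⟩ := h6
  have h9 : γ 0 1 ∣ ((γ 0 0) ^ 2 - 1) * y := by
    refine ⟨γ 0 0 * (c0 + e - c1 - e') + γ 1 0 * y, ?_⟩
    rw [h1] at hc0
    rw [h4] at hc1
    linear_combination γ 0 0 * hc0 - γ 0 0 * hc1 + γ 0 0 * he - γ 0 0 * he' + y * hdt
  have h10 : γ 0 1 ∣ y := hc.symm.dvd_of_dvd_mul_left h9
  obtain ⟨y', hy'⟩ := h10
  refine ⟨x, y', c0 + e, -(γ 0 1 * x * (γ 0 0 + γ 1 1) + (γ 0 1) ^ 2 * y'), ?_, ?_, ?_, ?_⟩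
  · rw [h1, hy']; ring
  · rw [h2, hy']; ring
  · rw [h1] at hc0
    rw [hy'] at hc0
    linear_combination hc0 + he
  · rw [hy'] at h5
    linear_combination h5

end

section
variable {ι : Type}

theorem pi_coprime {a b : ι → G} (h : ∀ j, IsCoprime (a j) (b j)) : IsCoprime a b := by
  choose u v h using h
  exact ⟨u, v, funext h⟩

theorem pi_nzd {y : ι → G} (h : ∀ j, y j ≠ 0) : ∀ x : ι → G, y * x = 0 → x = 0 := by
  intro x hx
  funext j
  have := congrFun hx j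
  exact (mul_eq_zero.1 this).resolve_left (h j)

/-- a matrix of functions from a function to matrices -/
def ofFun (f : ι → SL2 G) : SL2 (ι → G) :=
  m4 (fun j => f j 0 0) (fun j => f j 0 1) (fun j => f j 1 0) (fun j => f j 1 1)
    (funext fun j => det_eq (f j))

theorem ofFun_apply (f : ι → SL2 G) (i i' : Fin 2) (j : ι) : ofFun f i i' j = f j i i' := by
  fin_cases i <;> fin_cases i' <;> rfl

theorem ofFun_mul (f g : ι → SL2 G) : ofFun (fun j => f j * g j) = ofFun f * ofFun g := by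
  apply ext4
  · funext j; rw [mul_00]; exact mul_00 _ _
  · funext j; rw [mul_01]; exact mul_01 _ _
  · funext j; rw [mul_10]; exact mul_10 _ _
  · funext j; rw [mul_11]; exact mul_11 _ _

theorem ofFun_inv (f : ι → SL2 G) : ofFun (fun j => (f j)⁻¹) = (ofFun f)⁻¹ := by
  apply ext4
  · funext j; rw [inv_00]; exact inv_00 _
  · funext j; rw [inv_01]; exact inv_01 _
  · funext j; rw [inv_10]; exact inv_10 _
  · funext j; rw [inv_11]; exact inv_11 _

theorem I_pi : (fun _ : ι => I) * (fun _ : ι => I) = -1 := funext fun _ => I_mul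

/-- the power trick -/
theorem pow_mem (f : ι → SL2 G) (n : ι → ℕ) (hb : ∀ j, f j 0 1 ≠ 0)
    (hc : ∀ j, IsCoprime ((f j 0 0) ^ 2 - 1) (f j 0 1))
    (hd : ∀ j, f j 0 1 ∣ (f j 0 0) ^ (n j) - 1) :
    ofFun (fun j => f j ^ n j) ∈ Bdd G (ι → G) := by
  choose x y m s h1 h2 h3 h4 using fun j => pow_data (f j) (n j) (hc j) (hd j)
  choose η k e m' u v a' w g1 g2 g3 g4 g5 g6 g7 using fun j => split (Dvd.intro _ (h4 j).symm)
  rw [← cls_eq_one, cls_sym]
  let a : ι → G := fun j => f j 0 0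
  let b : ι → G := fun j => f j 0 1
  have hr0 : (ofFun (fun j => f j ^ n j)) 0 0 = x + (a * b) * y := by
    funext j; exact h1 j
  have hr1 : (ofFun (fun j => f j ^ n j)) 0 1 = b ^ 2 * y := by
    funext j; exact h2 j
  rw [hr0, hr1]
  have hcop : IsCoprime x y := pi_coprime fun j => ⟨x j, -s j, by linear_combination h4 j⟩
  have hcop2 : IsCoprime (x + (a * b) * y) y := hcop.add_mul_right_left (a * b)
  rw [sym_sq G hcop2 (pi_nzd hb) (u := 1) (v := 1) (by ring) (m := m)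
    (funext fun j => h3 j), sym_addL G hcop, ← sym_unit G hcop (u := η) (v := η)
    (funext fun j => g1 j)]
  have h5 : y * η = (fun j => lam ^ k j) ^ 2 * (u * v) := funext fun j => g3 j
  rw [h5]
  have h6 : (fun _ : ι => I) * (fun _ : ι => I) = -1 := I_pi
  have h8 : IsCoprime (x * η) (u * v) := by
    refine pi_coprime fun j => ?_
    have h9 : IsCoprime (x j * η j) (y j * η j) := by
      obtain ⟨p, q, hpq⟩ : IsCoprime (x j) (y j) := ⟨x j, -s j, by linear_combination h4 j⟩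
      exact ⟨p * η j, q * η j, by linear_combination (p * x j + q * y j) * g1 j + hpq⟩
    rw [g3 j] at h9
    exact h9.of_mul_right_right
  rw [sym_sq G h8 (pi_nzd fun j => pow_ne_zero _ lam_ne) (u := e) (v := e)
    (funext fun j => g2 j) (m := m') (funext fun j => g4 j)]
  exact sym_split G h6 (a' := a') (w := w) (funext fun j => g5 j) (funext fun j => g6 j)
    (pi_coprime fun j => g7 j)

/-- the power trick, transposed -/
theorem pow_mem' (f : ι → SL2 G) (n : ι → ℕ) (hb : ∀ j, f j 1 0 ≠ 0)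
    (hc : ∀ j, IsCoprime ((f j 0 0) ^ 2 - 1) (f j 1 0))
    (hd : ∀ j, f j 1 0 ∣ (f j 0 0) ^ (n j) - 1) :
    ofFun (fun j => f j ^ n j) ∈ Bdd G (ι → G) := by
  have h := transpose_mem G (pow_mem (fun j => (f j).transpose) n hb hc hd)
  convert h using 1
  have h1 : ∀ j, (f j).transpose ^ n j = (f j ^ n j).transpose := by
    intro j
    apply Subtype.ext
    rw [Matrix.SpecialLinearGroup.coe_pow]
    have : (((f j ^ n j).transpose : SL2 G) : Matrix (Fin 2) (Fin 2) G) =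
      ((f j ^ n j : SL2 G) : Matrix (Fin 2) (Fin 2) G).transpose := rfl
    rw [this, Matrix.SpecialLinearGroup.coe_pow, Matrix.transpose_pow]
    rfl
  simp only [h1]
  apply ext4
  · rfl
  · rfl
  · rfl
  · rfl

end

end Pool.Agent.T2H57.PP
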