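import Pool.Agent.T2H57.PP.Sq

/-!
# The classes of rows modulo polynomial families
-/

set_option autoImplicit false

open Matrix MvPolynomial

namespace Pool.Agent.T2H57.PP

variable (A : Type) [CommRing A] [IsDomain A] {K : Type} [CommRing K] [Algebra A K]

/-- the class of a matrix modulo polynomial families -/
noncomputable def cls (g : SL2 K) : SL2 K ⧸ Bdd A K := QuotientGroup.mk g

theorem cls_mul (g h : SL2 K) : cls A (g * h) = cls A g * cls A h := rfl
theorem cls_inv (g : SL2 K) : cls A (g⁻¹) = (cls A g)⁻¹ := rfl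
theorem cls_one : cls A (1 : SL2 K) = 1 := rfl
theorem cls_eq_one {g : SL2 K} : cls A g = 1 ↔ g ∈ Bdd A K := QuotientGroup.eq_one_iff g

theorem cls_row {g h : SL2 K} (h0 : g 0 0 = h 0 0) (h1 : g 0 1 = h 0 1) : cls A g = cls A h := by
  have h2 : g * h⁻¹ = eL ((g * h⁻¹) 1 0) := by
    apply ext4
    · rw [mul_00, inv_00, inv_10, h0, h1]
      simp only [eL, m4_00]
      linear_combination det_eq h
    · rw [mul_01, inv_01, inv_11, h0, h1]
      simp only [eL, m4_01]
      ring
    · rfl
    · rw [mul_11, inv_01, inv_11, ← h0, ← h1]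
      simp only [eL, m4_11]
      linear_combination det_eq g
  have h3 : g = (g * h⁻¹) * h := by group
  rw [h3, cls_mul, h2, (cls_eq_one A).2 (eL_mem A _), one_mul]

open Classical in
/-- the class of a row -/
noncomputable def sym (a b : K) : SL2 K ⧸ Bdd A K :=
  if h : ∃ u v : K, a * u - b * v = 1 then cls A (m4 a b h.choose_spec.choose h.choose
    h.choose_spec.choose_spec) else 1

theorem cls_sym (g : SL2 K) : cls A g = sym A (g 0 0) (g 0 1) := by
  have h : ∃ u v : K, g 0 0 * u - g 0 1 * v = 1 := ⟨_, _, det_eq g⟩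
  unfold sym
  rw [dif_pos h]
  exact cls_row A rfl rfl

theorem sym_m4 (a b c d : K) (h : a * d - b * c = 1) : cls A (m4 a b c d h) = sym A a b :=
  cls_sym A _

theorem ex_of_coprime {a b : K} (h : IsCoprime a b) : ∃ c d : K, a * d - b * c = 1 := by
  obtain ⟨u, v, h⟩ := h
  exact ⟨-v, u, by linear_combination h⟩

theorem sym_addL {a b : K} (h : IsCoprime a b) (t : K) : sym A (a + t * b) b = sym A a b := by
  obtain ⟨c, d, h⟩ := ex_of_coprime h
  have h1 : (a + t * b) * d - b * (c + t * d) = 1 := by linear_combination h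
  rw [← sym_m4 A a b c d h, ← sym_m4 A _ _ _ _ h1]
  have h2 : m4 (a + t * b) b (c + t * d) d h1 = m4 a b c d h * eL t := by
    apply ext4 <;>
    · simp only [mul_00, mul_01, mul_10, mul_11, eL, m4_00, m4_01, m4_10, m4_11]
      ring
  rw [h2, cls_mul, (cls_eq_one A).2 (eL_mem A _), mul_one]

theorem sym_addR {a b : K} (h : IsCoprime a b) (t : K) : sym A a (b + t * a) = sym A a b := by
  obtain ⟨c, d, h⟩ := ex_of_coprime h
  have h1 : a * (d + t * c) - (b + t * a) * c = 1 := by linear_combination h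
  rw [← sym_m4 A a b c d h, ← sym_m4 A _ _ _ _ h1]
  have h2 : m4 a (b + t * a) c (d + t * c) h1 = m4 a b c d h * eU t := by
    apply ext4 <;>
    · simp only [mul_00, mul_01, mul_10, mul_11, eU, m4_00, m4_01, m4_10, m4_11]
      ring
  rw [h2, cls_mul, (cls_eq_one A).2 (eU_mem A _), mul_one]

theorem sym_J {a b : K} (h : IsCoprime a b) : sym A (-b) a = sym A a b := by
  obtain ⟨c, d, h⟩ := ex_of_coprime h
  have h1 : (-b) * c - a * (-d) = 1 := by linear_combination h
  rw [← sym_m4 A a b c d h, ← sym_m4 A _ _ _ _ h1]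
  have h2 : m4 (-b) a (-d) c h1 = m4 a b c d h * JJ := by
    apply ext4 <;>
    · simp only [mul_00, mul_01, mul_10, mul_11, JJ, m4_00, m4_01, m4_10, m4_11]
      ring
  rw [h2, cls_mul, (cls_eq_one A).2 (J_mem A), mul_one]

theorem sym_unit {a b : K} (h : IsCoprime a b) {u v : K} (huv : u * v = 1) :
    sym A (a * u) (b * v) = sym A a b := by
  obtain ⟨c, d, h⟩ := ex_of_coprime h
  have h1 : (a * u) * (d * v) - (b * v) * (c * u) = 1 := by
    linear_combination (a * d - b * c) * huv + h
  rw [← sym_m4 A a b c d h, ← sym_m4 A _ _ _ _ h1]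
  have h2 : m4 (a * u) (b * v) (c * u) (d * v) h1 = m4 a b c d h * m4 u 0 0 v (by rw [huv]; ring) := by
    apply ext4 <;>
    · simp only [mul_00, mul_01, mul_10, mul_11, m4_00, m4_01, m4_10, m4_11]
      ring
  rw [h2, cls_mul, (cls_eq_one A).2 (unit_mem A u v huv), mul_one]

/-- removal of a square, first form -/
theorem sym_sq1 {a b y m : K} (h : IsCoprime a b) (hy : ∀ x : K, y * x = 0 → x = 0)
    (ha : a = 1 + y * m) : sym A a (y ^ 2 * b) = sym A a b := by
  have hay : IsCoprime a y := ⟨1, -m, by rw [ha]; ring⟩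
  have h2 : IsCoprime a (y ^ 2 * b) := (hay.pow_right).mul_right h
  obtain ⟨c, d, h3⟩ := ex_of_coprime h2
  have h4 : a * d - b * (y ^ 2 * c) = 1 := by linear_combination h3
  have h5 : a * d - c * (y ^ 2 * b) = 1 := by linear_combination h3
  have h6 := (cls_eq_one A).2 (sq_rel A y a b c d m hy ha h4 h5)
  rw [cls_mul, sym_m4] at h6
  have h7 : cls A (m4 a c (y ^ 2 * b) d h5) = (sym A a (y ^ 2 * b))⁻¹ := by
    have h8 : (m4 a c (y ^ 2 * b) d h5)⁻¹ = JJ⁻¹ * m4 a (y ^ 2 * b) c d h3 * JJ := by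
      apply ext4 <;>
      · simp only [mul_00, mul_01, mul_10, mul_11, inv_00, inv_01, inv_10, inv_11, JJ, m4_00,
          m4_01, m4_10, m4_11]
        ring
    have h9 : cls A ((m4 a c (y ^ 2 * b) d h5)⁻¹) = sym A a (y ^ 2 * b) := by
      rw [h8, cls_mul, cls_mul, cls_inv, (cls_eq_one A).2 (J_mem A), sym_m4]
      simp
    rw [← h9, cls_inv, inv_inv]
  rw [h7] at h6
  exact (mul_inv_eq_one.1 h6).symm

/-- removal of a square -/
theorem sym_sq {a b y m u v : K} (h : IsCoprime a b) (hy : ∀ x : K, y * x = 0 → x = 0)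
    (huv : u * v = 1) (ha : a = u + y * m) : sym A a (y ^ 2 * b) = sym A a b := by
  have hay : IsCoprime a y := ⟨v, -(m * v), by rw [ha]; linear_combination huv⟩
  have h2 : IsCoprime a (y ^ 2 * b) := (hay.pow_right).mul_right h
  have hvu : v * u = 1 := by rw [mul_comm]; exact huv
  rw [← sym_unit A h hvu, ← sym_unit A h2 hvu]
  have h3 : IsCoprime (a * v) (b * u) := by
    obtain ⟨p, q, hpq⟩ := h
    exact ⟨p * u, q * v, by linear_combination (p * a + q * b) * huv + hpq⟩
  have h4 : y ^ 2 * b * u = y ^ 2 * (b * u) := by ring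
  rw [h4]
  exact sym_sq1 A h3 hy (m := m * v) (by rw [ha]; linear_combination huv)

/-- inverse -/
theorem sym_inv {a b c d : K} (h : a * d - b * c = 1) : sym A d (-b) = (sym A a b)⁻¹ := by
  rw [← sym_m4 A a b c d h, ← cls_inv, cls_sym, inv_00, inv_01]
  rfl

theorem sym_prod {a b c d a' b' c' d' : K} (h : a * d - b * c = 1) (h' : a' * d' - b' * c' = 1) :
    sym A a b * sym A a' b' = sym A (a * a' + b * c') (a * b' + b * d') := by
  rw [← sym_m4 A a b c d h, ← sym_m4 A a' b' c' d' h', ← cls_mul, cls_sym, mul_00, mul_01]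
  rfl

/-- the sign does not matter if there is a square root of `-1` -/
theorem sym_neg {a b i : K} (hi : i * i = -1) (h : IsCoprime a b) : sym A a (-b) = sym A a b := by
  have h1 : -b = i ^ 2 * b := by linear_combination (-b) * hi
  rw [h1]
  refine sym_sq1 A h (fun x hx => ?_) (m := -i * (a - 1)) ?_
  · have : x = -(i * (i * x)) := by linear_combination x * hi
    rw [this, hx]; ring
  · linear_combination (a - 1) * hi

/-- rows `(a, u v)` with `a ≡ -1` mod `u`, `a ≡ 1` mod `v`, `v` odd -/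
theorem sym_split {a u v a' w i : K} (hi : i * i = -1) (hu : a + 1 = u * a') (hv : a = 1 + v * w)
    (h2 : IsCoprime 2 v) : sym A a (u * v) = 1 := by
  have h3 : IsCoprime (u * a') v := by
    have h4 : u * a' = 2 + v * w := by rw [← hu, hv]; ring
    rw [h4]
    exact IsCoprime.add_mul_left_left h2 w
  have h5 : IsCoprime a' v := h3.of_mul_left_right
  obtain ⟨c', d', h6⟩ := ex_of_coprime h5
  have h7 : (u - d') * a' - v * (w - c') = 1 := by
    linear_combination -hu + hv - h6
  have h8 := sym_prod A h7 h6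
  have h9 : (u - d') * a' + v * c' = a := by linear_combination -h6 - hu
  have h10 : (u - d') * v + v * d' = u * v := by ring
  rw [h9, h10] at h8
  rw [← h8]
  have h11 := sym_inv A h7
  rw [sym_neg A hi h5] at h11
  rw [h11, mul_inv_cancel]

theorem sym_one (b : K) : sym A 1 b = 1 := by
  have h : (1 : K) * 1 - b * 0 = 1 := by ring
  rw [← sym_m4 A 1 b 0 1 h]
  exact (cls_eq_one A).2 (eU_mem A b)

end Pool.Agent.T2H57.PP
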