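import Pool.Agent.T2H57.PP.Sym

/-!
# The square family and the classes of rows modulo polynomial families
-/

set_option autoImplicit false

open Matrix MvPolynomial

namespace Pool.Agent.T2H57.PP

section
variable {R : Type} [CommRing R]

theorem det_core (a B C d κ τ s D : R) (hD : D = a * d - B * C) (hκ : κ = 1 - D ^ 2)
    (hτ : τ = 1 + κ) (hs : s = B * d + a * C * τ) :
    ((κ - s) * κ + (B ^ 2 + a ^ 2 * τ) * D) * ((d ^ 2 + C ^ 2 * τ) * D * τ + (κ + s) * κ) -
      (-(κ - s) * D * τ + (B ^ 2 + a ^ 2 * τ) * κ) * (-(d ^ 2 + C ^ 2 * τ) * κ + (κ + s) * D) = 1 := by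
  have h1 : (κ - s) * (κ + s) + (B ^ 2 + a ^ 2 * τ) * (d ^ 2 + C ^ 2 * τ) = κ ^ 2 + τ * D ^ 2 := by
    rw [hs, hD]; ring
  have h2 : κ ^ 2 + D ^ 2 * τ = 1 := by rw [hτ, hκ]; ring
  have h3 : ((κ - s) * κ + (B ^ 2 + a ^ 2 * τ) * D) * ((d ^ 2 + C ^ 2 * τ) * D * τ + (κ + s) * κ) -
      (-(κ - s) * D * τ + (B ^ 2 + a ^ 2 * τ) * κ) * (-(d ^ 2 + C ^ 2 * τ) * κ + (κ + s) * D) =
      ((κ - s) * (κ + s) + (B ^ 2 + a ^ 2 * τ) * (d ^ 2 + C ^ 2 * τ)) * (κ ^ 2 + D ^ 2 * τ) := by
    ring
  rw [h3, h1, h2, mul_comm τ, h2, one_mul]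

variable (y m b c n : R)

/-- `E`, with `D = 1 + y E` the determinant of `1 + y (m, b; c, n)` -/
def qE : R := m + n + y * (m * n - b * c)
/-- `D` -/
def qD : R := 1 + y * qE y m b c n
/-- `κ = 1 - D²` -/
def qk : R := -(y * qE y m b c n * (qD y m b c n + 1))
/-- `τ = 2 - D²` -/
def qt : R := 1 + qk y m b c n
/-- `s / y` -/
def qs : R := b * (1 + y * n) + (1 + y * m) * c * qt y m b c n

/-- entries of the square family -/
def q00 : R := (qk y m b c n - y * qs y m b c n) * qk y m b c n +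
  (y ^ 2 * b ^ 2 + (1 + y * m) ^ 2 * qt y m b c n) * qD y m b c n
/-- entries of the square family -/
def q01 : R := -(qE y m b c n * (qD y m b c n + 1)) *
  (qt y m b c n * ((1 + y * m) ^ 2 - qD y m b c n) + y ^ 2 * b ^ 2) +
  qs y m b c n * qD y m b c n * qt y m b c n
/-- entries of the square family -/
def q10 : R := -((1 + y * n) ^ 2 + y ^ 2 * c ^ 2 * qt y m b c n) * qk y m b c n +
  (qk y m b c n + y * qs y m b c n) * qD y m b c n
/-- entries of the square family -/
def q11 : R := ((1 + y * n) ^ 2 + y ^ 2 * c ^ 2 * qt y m b c n) * qD y m b c n * qt y m b c n +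
  (qk y m b c n + y * qs y m b c n) * qk y m b c n

theorem q_det : q00 y m b c n * q11 y m b c n - q01 y m b c n * (y * q10 y m b c n) = 1 := by
  have h := det_core (1 + y * m) (y * b) (y * c) (1 + y * n) (qk y m b c n) (qt y m b c n)
    (y * qs y m b c n) (qD y m b c n) (by unfold qD qE; ring) (by unfold qk; unfold qD; ring) rfl
    (by unfold qs; ring)
  have h01 : -(qk y m b c n - y * qs y m b c n) * qD y m b c n * qt y m b c n +
      ((y * b) ^ 2 + (1 + y * m) ^ 2 * qt y m b c n) * qk y m b c n = y * q01 y m b c n := by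
    unfold q01
    have hk : qk y m b c n = y * (-(qE y m b c n * (qD y m b c n + 1))) := by unfold qk; ring
    generalize hW : -(qE y m b c n * (qD y m b c n + 1)) = W at hk ⊢
    rw [hk]
    ring
  rw [h01] at h
  unfold q00 q10 q11
  linear_combination h

end

variable (A : Type) [CommRing A] {K : Type} [CommRing K] [Algebra A K]

/-- the square family -/
def qfam {R : Type} [CommRing R] (y m b c n : R) : SL2 R :=
  m4 (q00 y m b c n) (q01 y m b c n) (y * q10 y m b c n) (q11 y m b c n) (q_det y m b c n)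

theorem qfam_mem (y m b c n : K) : qfam y m b c n ∈ Bdd A K := by
  refine ⟨Fin 5, inferInstance, qfam (X 0) (X 1) (X 2) (X 3) (X 4), ![y, m, b, c, n], ?_, ?_⟩
  · apply ext4 <;>
    simp [c0_apply, qfam, q00, q01, q10, q11, qE, qD, qk, qt, qs]
  · apply ext4 <;>
    simp [ev_apply, qfam, q00, q01, q10, q11, qE, qD, qk, qt, qs]

/-- removal of a square: the relation -/
theorem sq_rel (y a b c d m : K) (hy : ∀ x : K, y * x = 0 → x = 0) (ha : a = 1 + y * m)
    (h : a * d - b * (y ^ 2 * c) = 1) (h' : a * d - c * (y ^ 2 * b) = 1) :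
    m4 a b (y ^ 2 * c) d h * m4 a c (y ^ 2 * b) d h' ∈ Bdd A K := by
  obtain ⟨n, hn⟩ : ∃ n, n = -m * d + y * b * c := ⟨_, rfl⟩
  have hd : d = 1 + y * n := by
    rw [hn]
    linear_combination h - d * ha
  have hE : qE y m b c n = 0 := by
    apply hy
    unfold qE
    rw [ha, hd] at h
    linear_combination h
  have hD : qD y m b c n = 1 := by unfold qD; rw [hE]; ring
  have hk : qk y m b c n = 0 := by unfold qk; rw [hE]; ring
  have ht : qt y m b c n = 1 := by unfold qt; rw [hk]; ring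
  have hs : qs y m b c n = b * d + a * c := by unfold qs; rw [ht, ha, hd]; ring
  have h1 : m4 a b (y ^ 2 * c) d h * m4 a c (y ^ 2 * b) d h' = qfam y m b c n := by
    apply ext4
    · rw [mul_00]
      simp only [m4_00, m4_01, m4_10, m4_11, qfam, q00, hD, hk, ht, hs, ← ha, ← hd]
      ring
    · rw [mul_01]
      simp only [m4_00, m4_01, m4_10, m4_11, qfam, q01, hD, hE, ht, hs, ← ha, ← hd]
      ring
    · rw [mul_10]
      simp only [m4_00, m4_01, m4_10, m4_11, qfam, q10, hD, hk, ht, hs, ← ha, ← hd]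
      ring
    · rw [mul_11]
      simp only [m4_00, m4_01, m4_10, m4_11, qfam, q11, hD, hk, ht, hs, ← ha, ← hd]
      ring
  rw [h1]
  exact qfam_mem A _ _ _ _ _

end Pool.Agent.T2H57.PP
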