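import Pool.Agent.T2H57.PP.Fam

/-!
# Elementary matrices, the square family, and the classes of rows modulo polynomial families
-/

set_option autoImplicit false

open Matrix MvPolynomial

namespace Pool.Agent.T2H57.PP

/-- a matrix from its entries -/
def m4 {R : Type} [CommRing R] (a b c d : R) (h : a * d - b * c = 1) : SL2 R :=
  ⟨!![a, b; c, d], by rw [Matrix.det_fin_two_of]; exact h⟩

section
variable {R S : Type} [CommRing R] [CommRing S]

@[simp] theorem m4_00 (a b c d : R) (h : a * d - b * c = 1) : (m4 a b c d h) 0 0 = a := rfl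
@[simp] theorem m4_01 (a b c d : R) (h : a * d - b * c = 1) : (m4 a b c d h) 0 1 = b := rfl
@[simp] theorem m4_10 (a b c d : R) (h : a * d - b * c = 1) : (m4 a b c d h) 1 0 = c := rfl
@[simp] theorem m4_11 (a b c d : R) (h : a * d - b * c = 1) : (m4 a b c d h) 1 1 = d := rfl

theorem ext4 {g h : SL2 R} (h00 : g 0 0 = h 0 0) (h01 : g 0 1 = h 0 1) (h10 : g 1 0 = h 1 0)
    (h11 : g 1 1 = h 1 1) : g = h := by
  ext i j
  fin_cases i <;> fin_cases j <;> assumption

theorem mul_00 (g h : SL2 R) : (g * h) 0 0 = g 0 0 * h 0 0 + g 0 1 * h 1 0 := by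
  rw [Matrix.SpecialLinearGroup.coe_mul, Matrix.mul_apply, Fin.sum_univ_two]
theorem mul_01 (g h : SL2 R) : (g * h) 0 1 = g 0 0 * h 0 1 + g 0 1 * h 1 1 := by
  rw [Matrix.SpecialLinearGroup.coe_mul, Matrix.mul_apply, Fin.sum_univ_two]
theorem mul_10 (g h : SL2 R) : (g * h) 1 0 = g 1 0 * h 0 0 + g 1 1 * h 1 0 := by
  rw [Matrix.SpecialLinearGroup.coe_mul, Matrix.mul_apply, Fin.sum_univ_two]
theorem mul_11 (g h : SL2 R) : (g * h) 1 1 = g 1 0 * h 0 1 + g 1 1 * h 1 1 := by
  rw [Matrix.SpecialLinearGroup.coe_mul, Matrix.mul_apply, Fin.sum_univ_two]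

theorem inv_eq (g : SL2 R) (h : g 1 1 * g 0 0 - (-g 0 1) * (-g 1 0) = 1) :
    g⁻¹ = m4 (g 1 1) (-g 0 1) (-g 1 0) (g 0 0) h := by
  have := Matrix.SpecialLinearGroup.SL2_inv_expl g
  rw [this]; rfl

theorem det_eq (g : SL2 R) : g 0 0 * g 1 1 - g 0 1 * g 1 0 = 1 := by
  have := g.2
  rwa [Matrix.det_fin_two] at this

theorem inv_00 (g : SL2 R) : (g⁻¹) 0 0 = g 1 1 := by
  rw [inv_eq g (by linear_combination det_eq g)]; rfl
theorem inv_01 (g : SL2 R) : (g⁻¹) 0 1 = -g 0 1 := by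
  rw [inv_eq g (by linear_combination det_eq g)]; rfl
theorem inv_10 (g : SL2 R) : (g⁻¹) 1 0 = -g 1 0 := by
  rw [inv_eq g (by linear_combination det_eq g)]; rfl
theorem inv_11 (g : SL2 R) : (g⁻¹) 1 1 = g 0 0 := by
  rw [inv_eq g (by linear_combination det_eq g)]; rfl

/-- upper elementary matrix -/
def eU (t : R) : SL2 R := m4 1 t 0 1 (by ring)
/-- lower elementary matrix -/
def eL (t : R) : SL2 R := m4 1 0 t 1 (by ring)

/-- the matrix `J` -/
def JJ : SL2 R := m4 0 1 (-1) 0 (by ring)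

end

variable (A : Type) [CommRing A] {K : Type} [CommRing K] [Algebra A K]

theorem eU_mem (t : K) : eU t ∈ Bdd A K := by
  refine ⟨Unit, inferInstance, eU (X ()), fun _ => t, ?_, ?_⟩
  · apply ext4 <;> simp [c0_apply, eU]
  · apply ext4 <;> simp [ev_apply, eU]

theorem eL_mem (t : K) : eL t ∈ Bdd A K := by
  refine ⟨Unit, inferInstance, eL (X ()), fun _ => t, ?_, ?_⟩
  · apply ext4 <;> simp [c0_apply, eL]
  · apply ext4 <;> simp [ev_apply, eL]

theorem unit_mem (u v : K) (h : u * v = 1) : m4 u 0 0 v (by rw [h]; ring) ∈ Bdd A K := by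
  have h1 : m4 u 0 0 v (by rw [h]; ring) =
      (eU u * eL (-v) * eU u) * (eU (-1) * eL 1 * eU (-1)) := by
    apply ext4
    · simp only [mul_00, mul_01, mul_10, mul_11, eU, eL, m4_00, m4_01, m4_10, m4_11]
      linear_combination u * h
    · simp only [mul_00, mul_01, mul_10, mul_11, eU, eL, m4_00, m4_01, m4_10, m4_11]
      linear_combination (-1 : K) * h
    · simp only [mul_00, mul_01, mul_10, mul_11, eU, eL, m4_00, m4_01, m4_10, m4_11]
      linear_combination h
    · simp only [mul_00, mul_01, mul_10, mul_11, eU, eL, m4_00, m4_01, m4_10, m4_11]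
      ring
  rw [h1]
  exact mul_mem (mul_mem (mul_mem (eU_mem A _) (eL_mem A _)) (eU_mem A _))
    (mul_mem (mul_mem (eU_mem A _) (eL_mem A _)) (eU_mem A _))

theorem J_mem : (JJ : SL2 K) ∈ Bdd A K := by
  have h1 : (JJ : SL2 K) = eU 1 * eL (-1) * eU 1 := by
    apply ext4 <;>
    · simp only [mul_00, mul_01, mul_10, mul_11, eU, eL, JJ, m4_00, m4_01, m4_10, m4_11]
      ring
  rw [h1]
  exact mul_mem (mul_mem (eU_mem A _) (eL_mem A _)) (eU_mem A _)

theorem transpose_mem {g : SL2 K} (hg : g ∈ Bdd A K) : g.transpose ∈ Bdd A K := by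
  obtain ⟨σ, hσ, P, t, hP, rfl⟩ := hg
  refine ⟨σ, hσ, P.transpose, t, ?_, ?_⟩
  · ext i j
    rw [c0_apply]
    have : (P.transpose) i j = P j i := rfl
    rw [this, ← c0_apply, hP, Matrix.SpecialLinearGroup.coe_one, Matrix.one_apply, Matrix.one_apply]
    simp only [eq_comm]
  · ext i j
    rfl

end Pool.Agent.T2H57.PP
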