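import Pool.Agent.T2H57.PP.Ar3

/-!
# `SL(2, ℤ[i])` is a polynomial family
-/

set_option autoImplicit false

open Matrix MvPolynomial

namespace Pool.Agent.T2H57.PP

theorem sl2_mem {ι : Type} (f : ι → SL2 G) : ofFun f ∈ Bdd G (ι → G) := by
  have hcop : ∀ j, IsCoprime (f j 0 0) (f j 0 1) := fun j =>
    ⟨f j 1 1, -f j 1 0, by linear_combination det_eq (f j)⟩
  choose t s t' w k ε ε' a1 b1 a2 a3 b3 α e h1 h2 h3 h4 h5 h6 h7 h8 h9 h10 h11 h12 h13 h14
    using fun j => AR (hcop j)
  -- the matrices `α` are in the group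
  have hα : ofFun α ∈ Bdd G (ι → G) := by
    have m1 := pow_mem α (fun j => e j + 1) h9 h11 h13
    have m2 := pow_mem' α e h10 h12 h14
    have m3 : ofFun α = ofFun (fun j => α j ^ (e j + 1)) * (ofFun (fun j => α j ^ e j))⁻¹ := by
      rw [← ofFun_inv, ← ofFun_mul]
      congr 1
      funext j
      rw [pow_succ']
      group
    rw [m3]
    exact mul_mem m1 (inv_mem m2)
  rw [← cls_eq_one, cls_sym]
  rw [← cls_eq_one, cls_sym] at hα
  let a0 : ι → G := fun j => f j 0 0
  let b0 : ι → G := fun j => f j 0 1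
  have r0 : (ofFun f) 0 0 = a0 := rfl
  have r1 : (ofFun f) 0 1 = b0 := rfl
  rw [r0, r1]
  have q0 : (ofFun α) 0 0 = a3 * ε := funext h7
  have q1 : (ofFun α) 0 1 = b3 * ε' := funext h8
  rw [q0, q1] at hα
  have e1 : a1 = a0 + t * b0 := funext h1
  have e2 : b1 = b0 + s * a1 := funext h2
  have e3 : a2 = a1 + t' * b1 := funext h3
  have e4 : a3 = -b1 + w * a2 := funext h4
  have e5 : b3 = a2 + k * a3 := funext h5
  have e6 : ε * ε' = 1 := funext h6
  have c0 : IsCoprime a0 b0 := pi_coprime hcop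
  have c1 : IsCoprime a1 b0 := by rw [e1]; exact c0.add_mul_right_left t
  have c2 : IsCoprime a1 b1 := by rw [e2]; exact c1.add_mul_right_right s
  have c3 : IsCoprime a2 b1 := by rw [e3]; exact c2.add_mul_right_left t'
  have c3' : IsCoprime (-b1) a2 := c3.symm.neg_left
  have c4 : IsCoprime a3 a2 := by rw [e4]; exact c3'.add_mul_right_left w
  have c5 : IsCoprime a3 b3 := by rw [e5]; exact c4.add_mul_right_right k
  rw [sym_unit G c5 e6] at hα
  rw [e5, sym_addR G c4, e4, sym_addL G c3', sym_J G c3, e3, sym_addL G c2, e2, sym_addR G c1,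
    e1, sym_addL G c0] at hα
  exact hα

/-- every matrix of `SL(2, ℤ[i])` is a value of one polynomial family -/
theorem universal : ∃ (σ : Type) (_ : Finite σ) (P : SL2 (MvPolynomial σ G)),
    ∀ g : SL2 G, ∃ u : σ → G, ∀ i j, aeval u (P i j) = g i j := by
  obtain ⟨σ, hσ, P, t, -, h⟩ := sl2_mem (id : SL2 G → SL2 G)
  refine ⟨σ, hσ, P, fun g => ⟨fun s => t s g, fun i j => ?_⟩⟩
  have h1 := congrArg (fun M : SL2 (SL2 G → G) => M i j g) h
  simp only [ofFun_apply, id] at h1
  rw [← h1, ev_apply]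
  have h2 : aeval (fun s => t s g) = (Pi.evalAlgHom G (fun _ : SL2 G => G) g).comp (aeval t) := by
    refine MvPolynomial.algHom_ext fun s => ?_
    simp
  rw [h2]
  rfl

end Pool.Agent.T2H57.PP
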